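import Pool.Agent.MP_f0649b_al.FS.Defs

/-! Descent from the cover. -/

open Module

namespace Pool.Agent.MP_f0649b_al.FS

variable {k G V W : Type} [Field k] [Group G] [AddCommGroup V] [Module k V] [AddCommGroup W]
  [Module k W]

theorem Desc_lift {A B N : Type} [Group A] [Group B] [Monoid N] (φ : A →* B)
    (hφ : Function.Surjective φ) (μ : A →* N) (h : ∀ a, φ a = 1 → μ a = 1) :
    ∃ ν : B →* N, ∀ a, ν (φ a) = μ a := by
  have key : ∀ a a', φ a = φ a' → μ a = μ a' := by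
    intro a a' e
    have h1 : μ (a⁻¹ * a') = 1 := h _ (by rw [map_mul, map_inv, e, inv_mul_cancel])
    rw [← mul_inv_cancel_left a a', map_mul, h1, mul_one]
  choose r hr using hφ
  refine ⟨{ toFun := fun b => μ (r b)
            map_one' := h _ (hr 1)
            map_mul' := fun b b' => ?_ }, fun a => key _ _ (hr _)⟩
  rw [← map_mul]
  exact key _ _ (by rw [map_mul, hr, hr, hr])

theorem Desc_map_smul {X M : Type} [AddCommGroup X] [Module ℂ X] [AddCommGroup M] [Module ℂ M]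
    (a b : ℂ) : TensorProduct.map (a • (1 : Module.End ℂ X)) (b • (1 : Module.End ℂ M)) =
      (a * b) • (1 : Module.End ℂ (TensorProduct ℂ X M)) := by
  rw [TensorProduct.map_smul_left, TensorProduct.map_smul_right, smul_smul,
    TensorProduct.map_one]

theorem desc {s : ℕ} {θ : kˣ →* ℂˣ} (ρ : Representation k G V) {Γ : Type} [Group Γ]
    (π : Γ →* G) (hπ : Function.Surjective π) (β : Representation k Γ W) (hβ : Concl s θ β)
    {X : Type} [AddCommGroup X] [Module ℂ X] [FiniteDimensional ℂ X] (ξ : Representation ℂ Γ X)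
    {n f : ℕ} (hn : n * finrank k W = finrank k V) (hn0 : 0 < n) (hX : finrank ℂ X = s ^ f)
    (hf : s ^ f ∣ n)
    (hk : ∀ γ, π γ = 1 → ∃ c : kˣ, β γ = ((c⁻¹ : kˣ) : k) • (1 : Module.End k W) ∧
      ξ γ = (θ c : ℂ) • (1 : Module.End ℂ X))
    (hs : ∀ (g : G) (c : kˣ), ρ g = (c : k) • (1 : Module.End k V) →
      ∃ γ, π γ = g ∧ β γ = (c : k) • (1 : Module.End k W) ∧ ξ γ = 1) : Concl s θ ρ := by
  obtain ⟨U', M', _, _, _, σ', e, h1, h2, h3, h4⟩ := hβ
  have hker : π.ker ≤ U' := fun γ hγ => by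
    obtain ⟨c, hc, -⟩ := hk γ hγ
    exact (h4 γ _ hc).1
  let μ : Representation ℂ U' (TensorProduct ℂ X M') :=
    Representation.tprod (ξ.comp U'.subtype) σ'
  have hμ : ∀ γ : U', μ γ = TensorProduct.map (ξ γ) (σ' γ) := fun _ => rfl
  obtain ⟨ν, hν⟩ := Desc_lift (π.subgroupMap U') (π.subgroupMap_surjective U') μ (by
    intro γ hγ
    obtain ⟨c, hc, hc'⟩ := hk γ (congrArg Subtype.val hγ)
    obtain ⟨_, h5⟩ := h4 γ _ hc
    have h6 : σ' γ = (θ c⁻¹ : ℂ) • (1 : Module.End ℂ M') := h5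
    rw [hμ, hc', h6, Desc_map_smul, ← Units.val_mul, ← map_mul, mul_inv_cancel, map_one,
      Units.val_one, one_smul])
  have hd : finrank ℂ (TensorProduct ℂ X M') = s ^ (f + e) := by
    rw [finrank_tensorProduct, hX, h2, pow_add]
  refine ⟨U'.map π, TensorProduct ℂ X M', inferInstance, inferInstance, inferInstance, ν, f + e,
    ?_, hd, ?_, fun g c hg => ?_⟩
  · rw [Subgroup.index_map_eq _ hπ hker, hd, pow_add, ← h2, ← hn, mul_left_comm]
    exact Nat.mul_le_mul (Nat.le_of_dvd hn0 hf) h1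
  · rw [pow_add, ← hn]
    exact mul_dvd_mul hf h3
  · obtain ⟨γ, rfl, hc, hc'⟩ := hs g c hg
    obtain ⟨h5, h6⟩ := h4 γ c hc
    refine ⟨⟨γ, h5, rfl⟩, ?_⟩
    have h7 := hν ⟨γ, h5⟩
    rw [hμ, h6] at h7
    have h8 : ξ γ = (1 : ℂ) • (1 : Module.End ℂ X) := by rw [hc', one_smul]
    rw [h8, Desc_map_smul, one_mul] at h7
    exact h7

end Pool.Agent.MP_f0649b_al.FS
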