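import Pool.Agent.MP_f0649b_al.FS.Defs

/-! Reduction steps for the lifting theorem. -/

open Module

namespace Pool.Agent.MP_f0649b_al.FS

variable {k G V W : Type} [Field k] [Group G] [AddCommGroup V] [Module k V] [AddCommGroup W]
  [Module k W]

theorem red_piece [FiniteDimensional k V] [Nontrivial V] {s : ℕ} [Fact s.Prime]
    (ρ : Representation k G V) (h : ¬ Irr ρ) :
    ∃ (W : Type) (_ : AddCommGroup W) (_ : Module k W) (_ : FiniteDimensional k W)
      (_ : Nontrivial W) (τ : Representation k G W), finrank k W < finrank k V ∧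
      (∀ e, s ^ e ∣ finrank k W → s ^ e ∣ finrank k V) ∧
      ∀ (g : G) (c : k), ρ g = c • (1 : Module.End k V) → τ g = c • (1 : Module.End k W) := by
  obtain ⟨U, hU, h1, h2⟩ : ∃ U : Submodule k V, (∀ g, ∀ v ∈ U, ρ g v ∈ U) ∧ U ≠ ⊥ ∧ U ≠ ⊤ := by
    by_contra h'
    push Not at h'
    exact h ⟨inferInstance, fun U hU => or_iff_not_imp_left.2 (h' U hU)⟩
  have hU' : ∀ g, U ≤ U.comap (ρ g) := fun g v hv => hU g v hv
  have hadd := U.finrank_quotient_add_finrank
  have a1 : Nontrivial U := Submodule.nontrivial_iff_ne_bot.2 h1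
  have a2 : Nontrivial (V ⧸ U) := Submodule.Quotient.nontrivial_iff.2 h2
  have b1 : 0 < finrank k U := finrank_pos
  have b2 : 0 < finrank k (V ⧸ U) := finrank_pos
  by_cases hc : ∀ e, s ^ e ∣ finrank k U → s ^ e ∣ finrank k V
  · exact ⟨U, inferInstance, inferInstance, inferInstance, a1, ρ.subrepresentation U hU',
      by omega, hc, fun g c e => LinearMap.ext fun v => Subtype.ext (LinearMap.congr_fun e v)⟩
  · push Not at hc
    obtain ⟨e1, c1, c2⟩ := hc
    refine ⟨V ⧸ U, inferInstance, inferInstance, inferInstance, a2, ρ.quotient U hU', by omega,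
      fun e c3 => ?_, fun g c e => LinearMap.ext fun v => ?_⟩
    · rw [← hadd] at c2 ⊢
      rcases le_total e e1 with h3 | h3
      · exact dvd_add c3 ((pow_dvd_pow s h3).trans c1)
      · exact absurd (dvd_add ((pow_dvd_pow s h3).trans c3) c1) c2
    · obtain ⟨w, rfl⟩ := U.mkQ_surjective v
      change U.mkQ (ρ g w) = c • U.mkQ w
      rw [e, ← map_smul]
      rfl

theorem red_ind {s : ℕ} {θ : kˣ →* ℂˣ} (ρ : Representation k G V) (H : Subgroup G)
    (σ : Representation k H W) (ι : W →ₗ[k] V) (hd : H.index * finrank k W = finrank k V)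
    (hs : scal ρ ≤ H) (hι : Function.Injective ι) (hc : ∀ (h : H) w, ι (σ h w) = ρ h (ι w))
    (h : Concl s θ σ) : Concl s θ ρ := by
  obtain ⟨U, M, i1, i2, i3, τ, e, a1, a2, a3, a4⟩ := h
  let f := U.equivMapOfInjective H.subtype H.subtype_injective
  refine ⟨U.map H.subtype, M, i1, i2, i3, τ.comp f.symm.toMonoidHom, e, ?_, a2, ?_,
    fun g c hg => ?_⟩
  · rw [Subgroup.index_map_subtype, ← hd, mul_comm U.index, mul_assoc]
    exact Nat.mul_le_mul_left _ a1
  · rw [← hd]
    exact a3.mul_left _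
  · have hH : g ∈ H := hs ⟨c, hg⟩
    obtain ⟨hU, e'⟩ := a4 ⟨g, hH⟩ c (LinearMap.ext fun w => hι (by
      rw [hc, hg]
      simp))
    refine ⟨⟨_, hU, rfl⟩, ?_⟩
    rw [← e']
    exact congrArg τ (f.symm_apply_eq.2 (Subtype.ext rfl))

theorem red_one {s : ℕ} {θ : kˣ →* ℂˣ} (ρ : Representation k G V) (h : finrank k V = 1) :
    Concl s θ ρ := by
  let ε : G →* ℂˣ := θ.comp ((LinearMap.det.comp ρ).toHomUnits)
  let σ : Representation ℂ G ℂ :=
    { toFun := fun x => (ε x : ℂ) • (1 : Module.End ℂ ℂ)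
      map_one' := by simp
      map_mul' := fun x y => by simp [smul_smul, mul_comm] }
  refine ⟨⊤, ℂ, inferInstance, inferInstance, inferInstance, σ.comp (⊤ : Subgroup G).subtype, 0,
    by simp [h], by simp, one_dvd _, fun g c hg => ⟨trivial, ?_⟩⟩
  have : (LinearMap.det.comp ρ).toHomUnits g = c := Units.ext (by
    have := Module.finite_of_finrank_eq_succ h
    change LinearMap.det (ρ g) = c
    rw [hg, LinearMap.det_smul, h, map_one, pow_one, mul_one])
  change (θ ((LinearMap.det.comp ρ).toHomUnits g) : ℂ) • (1 : Module.End ℂ ℂ) = _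
  rw [this]

end Pool.Agent.MP_f0649b_al.FS
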