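import Pool.Agent.MP_f0649b_al.FS.SN

/-! The multiplicity space. -/

open Module

namespace Pool.Agent.MP_f0649b_al.FS

variable {k G V W : Type} [Field k] [Group G] [AddCommGroup V] [Module k V] [AddCommGroup W]
  [Module k W]

/-- the space of `E`-equivariant maps -/
def Tens_Y (ρ : Representation k G V) {E : Subgroup G} (τ : Representation k E W) :
    Submodule k (W →ₗ[k] V) where
  carrier := {φ | ∀ (e : E) w, φ (τ e w) = ρ e (φ w)}
  add_mem' := fun {a b} ha hb e w => by
    rw [LinearMap.add_apply, LinearMap.add_apply, ha, hb, map_add]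
  zero_mem' := fun e w => by simp
  smul_mem' := fun c a ha e w => by
    rw [LinearMap.smul_apply, LinearMap.smul_apply, ha, map_smul]

theorem Tens_stable (ρ : Representation k G V) {E : Subgroup G} [E.Normal]
    {τ : Representation k E W} {Γ : Type} [Group Γ] {π : Γ →* G} {α : Representation k Γ W}
    (h : Cov E τ π α) (γ : Γ) :
    Tens_Y ρ τ ≤ (Tens_Y ρ τ).comap (Representation.linHom α (ρ.comp π) γ) := by
  intro φ hφ e w
  change ρ (π γ) (φ (α γ⁻¹ (τ e w))) = ρ e (ρ (π γ) (φ (α γ⁻¹ w)))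
  have h1 : α γ⁻¹ (τ e w) = τ _ (α γ⁻¹ w) := DFunLike.congr_fun (h.conj γ⁻¹ e) w
  rw [h1, hφ, ← Module.End.mul_apply, ← Module.End.mul_apply, ← map_mul, ← map_mul]
  congr 2
  simp [mul_assoc]

/-- the evaluation map -/
def Tens_ev {n : ℕ} (Y : Submodule k (W →ₗ[k] V)) (b : Fin n → W) : (Fin n → Y) →ₗ[k] V where
  toFun φ := ∑ j, (φ j : W →ₗ[k] V) (b j)
  map_add' φ ψ := by simp [Finset.sum_add_distrib]
  map_smul' c φ := by simp [Finset.smul_sum]

theorem Tens_inj [IsAlgClosed k] [FiniteDimensional k W] (ρ : Representation k G V)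
    {E : Subgroup G} {τ : Representation k E W} (hτ : Irr τ) {n : ℕ} (b : Basis (Fin n) k W) :
    Function.Injective (Tens_ev (Tens_Y ρ τ) b) := by
  rw [injective_iff_map_eq_zero]
  intro φ hφ
  have h1 : ∀ T : Module.End k W, ∑ j, (φ j : W →ₗ[k] V) (T (b j)) = 0 := by
    intro T
    have hT : T ∈ Submodule.span k (Set.range τ) := burn hτ ▸ Submodule.mem_top
    induction hT using Submodule.span_induction with
    | mem x hx =>
      obtain ⟨e, rfl⟩ := hx
      rw [Finset.sum_congr rfl fun j _ => (φ j).2 e (b j), ← map_sum]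
      exact (congrArg (ρ e) hφ).trans (map_zero _)
    | zero => simp
    | add x y _ _ hx hy => simp [Finset.sum_add_distrib, hx, hy]
    | smul c x _ hx => simp [← Finset.smul_sum, hx]
  funext j
  ext w
  have h2 := h1 ((b.coord j).smulRight w)
  rw [Finset.sum_eq_single j (fun i _ hi => by simp [hi]) (by simp)] at h2
  simpa using h2

theorem Tens_mem (Y : Submodule k (W →ₗ[k] V)) {n : ℕ} (b : Basis (Fin n) k W) (φ : Y) (w : W) :
    (φ : W →ₗ[k] V) w ∈ LinearMap.range (Tens_ev Y b) := by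
  refine ⟨fun j => b.repr w j • φ, ?_⟩
  conv_rhs => rw [← b.sum_repr w, map_sum]
  change ∑ j, b.repr w j • (φ : W →ₗ[k] V) (b j) = _
  simp only [map_smul]

theorem tens [IsAlgClosed k] [FiniteDimensional k V] [FiniteDimensional k W]
    {ρ : Representation k G V} (hρ : Irr ρ) {E : Subgroup G} [E.Normal]
    {τ : Representation k E W} (hτ : Irr τ) (ι : W →ₗ[k] V) (hι : Function.Injective ι)
    (hc : ∀ (e : E) w, ι (τ e w) = ρ e (ι w)) {Γ : Type} [Group Γ] {π : Γ →* G}
    {α : Representation k Γ W} (h : Cov E τ π α) :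
    ∃ (Y : Type) (_ : AddCommGroup Y) (_ : Module k Y) (_ : FiniteDimensional k Y)
      (β : Representation k Γ Y), finrank k W * finrank k Y = finrank k V ∧
      ∀ (γ : Γ) (c d : kˣ), α γ = (c : k) • (1 : Module.End k W) →
        ρ (π γ) = (d : k) • (1 : Module.End k V) →
        β γ = ((d * c⁻¹ : kˣ) : k) • (1 : Module.End k Y) := by
  let β := (Representation.linHom α (ρ.comp π)).subrepresentation (Tens_Y ρ τ) (Tens_stable ρ h)
  have hβ : ∀ γ (φ : Tens_Y ρ τ) w, (β γ φ : W →ₗ[k] V) w = ρ (π γ) (φ.1 (α γ⁻¹ w)) :=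
    fun _ _ _ => rfl
  have hα : ∀ γ w, α γ⁻¹ (α γ w) = w := fun γ w => by
    rw [← Module.End.mul_apply, ← map_mul, inv_mul_cancel, map_one, Module.End.one_apply]
  let b := Module.finBasis k W
  have hs : LinearMap.range (Tens_ev (Tens_Y ρ τ) b) = ⊤ := by
    refine (hρ.2 _ ?_).resolve_left fun e => ?_
    · rintro g _ ⟨φ, rfl⟩
      obtain ⟨γ, rfl⟩ := h.surj g
      change ρ (π γ) (∑ j, (φ j : W →ₗ[k] V) (b j)) ∈ _
      rw [map_sum]
      refine Submodule.sum_mem _ fun j _ => ?_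
      have h1 := Tens_mem _ b (β γ (φ j)) (α γ (b j))
      rwa [hβ, hα] at h1
    · have := hτ.1
      obtain ⟨w, hw⟩ := exists_ne (0 : W)
      have h1 := Tens_mem (Tens_Y ρ τ) b ⟨ι, hc⟩ w
      rw [e, Submodule.mem_bot] at h1
      exact hw (hι (h1.trans (map_zero ι).symm))
  refine ⟨Tens_Y ρ τ, inferInstance, inferInstance, inferInstance, β, ?_, fun γ c d h1 h2 => ?_⟩
  · rw [← (LinearEquiv.ofBijective _
      ⟨Tens_inj ρ hτ b, LinearMap.range_eq_top.1 hs⟩).finrank_eq, Module.finrank_pi_fintype]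
    simp
  · ext φ w
    have h3 : α γ⁻¹ w = ((c⁻¹ : kˣ) : k) • w := by
      have h4 := hα γ (((c⁻¹ : kˣ) : k) • w)
      rw [h1] at h4
      rw [← h4]
      simp [smul_smul]
    rw [hβ, h2, h3]
    simp [smul_smul, mul_comm]

end Pool.Agent.MP_f0649b_al.FS
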