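import Pool.Agent.MP_f0649b_al.FS.Defs

/-! Existence of the transport of roots of unity. -/

namespace Pool.Agent.MP_f0649b_al.FS

/-- the exponential on the rational numbers -/
noncomputable def Theta_exp : ℚ →+ Additive ℂˣ where
  toFun r := Additive.ofMul
    (Units.mk0 (Complex.exp (r * (2 * Real.pi * Complex.I))) (Complex.exp_ne_zero _))
  map_zero' := by simp
  map_add' a b := by
    rw [← ofMul_mul]
    congr 1
    ext
    simp [add_mul, Complex.exp_add]

theorem Theta_exp_eq (r : ℚ) : Theta_exp r = 0 ↔ r ∈ AddSubgroup.zmultiples (1 : ℚ) := by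
  have h : Theta_exp r = 0 ↔ Complex.exp (r * (2 * Real.pi * Complex.I)) = 1 := by
    simp [Theta_exp, Units.ext_iff]
  rw [h, Complex.exp_eq_one_iff, AddSubgroup.mem_zmultiples_iff]
  refine exists_congr fun n => ?_
  rw [mul_left_inj' Complex.two_pi_I_ne_zero, zsmul_one, eq_comm]
  norm_cast

theorem Theta_char {A : Type} [CommGroup A] {a : A} (ha : a ≠ 1) : ∃ χ : A →* ℂˣ, χ a ≠ 1 := by
  obtain ⟨c, hc⟩ := CharacterModule.exists_character_apply_ne_zero_of_ne_zero
    (a := Additive.ofMul a) ha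
  let E : AddCircle (1 : ℚ) →+ Additive ℂˣ :=
    QuotientAddGroup.lift _ Theta_exp fun r hr => (Theta_exp_eq r).2 hr
  refine ⟨⟨⟨fun x => Additive.toMul (E (c (Additive.ofMul x))), by simp⟩, fun x y => by simp⟩,
    fun h => hc ?_⟩
  have h' : E (c (Additive.ofMul a)) = 0 := h
  generalize c (Additive.ofMul a) = z at h'
  induction z using QuotientAddGroup.induction_on with
  | H r => exact (QuotientAddGroup.eq_zero_iff r).2 ((Theta_exp_eq r).1 h')

theorem Theta_inj {k : Type} [Field k] {s : ℕ} {θ : kˣ →* ℂˣ}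
    (h : ∀ c : kˣ, c ^ s = 1 → θ c = 1 → c = 1) (c : kˣ) (e : ℕ) (h1 : c ^ s ^ e = 1)
    (h2 : θ c = 1) : c = 1 := by
  induction e generalizing c with
  | zero => simpa using h1
  | succ e ih =>
    rw [pow_succ', pow_mul] at h1
    exact h c (ih _ h1 (by rw [map_pow, h2, one_pow])) h2

theorem exists_theta (k : Type) [Field k] (s : ℕ) [Fact s.Prime] : ∃ θ : kˣ →* ℂˣ, Th s θ := by
  have hs : s.Prime := Fact.out
  by_cases h : ∃ w : kˣ, orderOf w = s
  · obtain ⟨w, hw⟩ := h
    let T : Subgroup kˣ :=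
      { carrier := {c | ∃ n, ¬ s ∣ n ∧ c ^ n = 1}
        one_mem' := ⟨1, hs.not_dvd_one, one_pow _⟩
        mul_mem' := by
          rintro a b ⟨m, h1, h2⟩ ⟨n, h3, h4⟩
          refine ⟨m * n, hs.not_dvd_mul h1 h3, ?_⟩
          rw [mul_pow, pow_mul, h2, one_pow, one_mul, mul_comm, pow_mul, h4, one_pow]
        inv_mem' := by
          rintro a ⟨m, h1, h2⟩
          exact ⟨m, h1, by rw [inv_pow, h2, inv_one]⟩ }
    obtain ⟨χ, hχ⟩ := Theta_char (a := QuotientGroup.mk' T w) fun e => by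
      obtain ⟨n, h1, h2⟩ := (QuotientGroup.eq_one_iff w).1 e
      exact h1 (hw ▸ orderOf_dvd_of_pow_eq_one h2)
    refine ⟨χ.comp (QuotientGroup.mk' T), Theta_inj fun c h1 h2 => ?_, fun c n h1 h2 => ?_⟩
    · have : NeZero s := ⟨hs.ne_zero⟩
      have hp : IsPrimitiveRoot (w : k) s :=
        IsPrimitiveRoot.coe_units_iff.2 (hw ▸ IsPrimitiveRoot.orderOf w)
      obtain ⟨i, -, hi⟩ := hp.eq_pow_of_pow_eq_one (ξ := (c : k))
        (by rw [← Units.val_pow_eq_pow_val, h1, Units.val_one])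
      have hi' : w ^ i = c := Units.ext (by rw [Units.val_pow_eq_pow_val, hi])
      have ho : orderOf (χ.comp (QuotientGroup.mk' T) w) = s :=
        orderOf_eq_prime (by rw [← map_pow, ← hw, pow_orderOf_eq_one, map_one]) hχ
      rw [← hi', map_pow, ← orderOf_dvd_iff_pow_eq_one, ho] at h2
      rw [← hi', ← orderOf_dvd_iff_pow_eq_one, hw]
      exact h2
    · have e : QuotientGroup.mk' T c = 1 := (QuotientGroup.eq_one_iff c).2 ⟨n, h1, h2⟩
      rw [MonoidHom.comp_apply, e, map_one]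
  · refine ⟨1, Theta_inj fun c h1 _ => ?_, fun _ _ _ _ => rfl⟩
    by_contra hc
    exact h ⟨c, orderOf_eq_prime h1 hc⟩

end Pool.Agent.MP_f0649b_al.FS
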