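import Pool.Agent.MP_f0649b_al.FS.Lift
import Pool.Agent.MP_f0649b_al.FS.Tens
import Pool.Agent.MP_f0649b_al.FS.Red
import Pool.Agent.MP_f0649b_al.FS.Desc
import Pool.Agent.MP_f0649b_al.FS.Theta

/-! The lifting theorem for solvable groups. -/

open Module
open scoped commutatorElement

namespace Pool.Agent.MP_f0649b_al.FS

variable {k G V W : Type} [Field k] [Group G] [AddCommGroup V] [Module k V] [AddCommGroup W]
  [Module k W]

theorem scal_sub {ρ : Representation k G V} {E : Subgroup G} {τ : Representation k E W}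
    {ι : W →ₗ[k] V} (hι : Function.Injective ι) (hc : ∀ (e : E) w, ι (τ e w) = ρ e (ι w))
    {e : E} {c : k} (h : ρ e = c • (1 : Module.End k V)) : τ e = c • (1 : Module.End k W) :=
  LinearMap.ext fun w => hι (by rw [hc, h]; simp)

theorem scal_eq {ρ : Representation k G V} (hq : QP ρ) {E : Subgroup G} [hE : E.Normal]
    (h2 : ⁅E, E⁆ ≤ scal ρ) {τ : Representation k E W} [Nontrivial W]
    {ι : W →ₗ[k] V} (hι : Function.Injective ι) (hc : ∀ (e : E) w, ι (τ e w) = ρ e (ι w)) :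
    scal τ = (scal ρ).subgroupOf E := by
  refine le_antisymm ?_ (fun e ⟨c, he⟩ => ⟨c, scal_sub hι hc he⟩)
  let R : Subgroup G := E ⊓ (Subgroup.centralizer (E.map ρ.toHomUnits : Set _)).comap ρ.toHomUnits
  have hR : ∀ x, x ∈ R ↔ x ∈ E ∧ ∀ y ∈ E, ρ y * ρ x = ρ x * ρ y := by
    intro x
    refine and_congr_right fun _ => ⟨fun h y hy => ?_, fun h => ?_⟩
    · exact congrArg Units.val (h (ρ.toHomUnits y) ⟨y, hy, rfl⟩)
    · rintro _ ⟨y, hy, rfl⟩
      exact Units.ext (h y hy)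
  have hN : R.Normal := ⟨fun x hx g => by
    rw [hR] at hx ⊢
    refine ⟨hE.conj_mem _ hx.1 g, fun y hy => ?_⟩
    have h1 := hx.2 _ (hE.conj_mem' _ hy g)
    rw [← map_mul, ← map_mul] at h1 ⊢
    calc ρ (y * (g * x * g⁻¹)) = ρ g * ρ (g⁻¹ * y * g * x) * ρ g⁻¹ := by
          rw [← map_mul, ← map_mul]; congr 1; group
      _ = ρ (g * x * g⁻¹ * y) := by rw [h1, ← map_mul, ← map_mul]; congr 1; group⟩
  rintro e ⟨c, he⟩
  refine hq R hN (fun x hx y hy => ((hR y).1 hy).2 x ((hR x).1 hx).1) ((hR e).2 ⟨e.2, fun y hy => ?_⟩)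
  obtain ⟨d, hd⟩ := h2 (Subgroup.commutator_mem_commutator hy e.2)
  have h3 : τ ⁅(⟨y, hy⟩ : E), e⁆ = (d : k) • (1 : Module.End k W) := scal_sub hι hc hd
  have h4 : τ ⁅(⟨y, hy⟩ : E), e⁆ = 1 := by
    rw [commutatorElement_def, map_mul, map_mul, map_mul, he, mul_smul_comm, mul_one,
      smul_mul_assoc, ← map_mul, mul_inv_cancel, map_one, ← he, ← map_mul, mul_inv_cancel, map_one]
  have h5 : (d : k) = 1 := by
    obtain ⟨w, hw⟩ := exists_ne (0 : W)
    have := LinearMap.congr_fun (h3.symm.trans h4) w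
    exact smul_left_injective k hw (by simpa using this)
  rw [h5, one_smul] at hd
  calc ρ y * ρ e = ρ ⁅y, (e : G)⁆ * (ρ e * ρ y) := by
        rw [← map_mul, ← map_mul, ← map_mul]; congr 1; rw [commutatorElement_def]; group
    _ = ρ e * ρ y := by rw [hd, one_mul]

theorem fs_prim [IsAlgClosed k] {s : ℕ} [hs : Fact s.Prime] {θ : kˣ →* ℂˣ} (hθ : Th s θ)
    [Finite G] [Group.IsSolvable G] [FiniteDimensional k V] {ρ : Representation k G V}
    (hρ : Irr ρ) (hq : QP ρ)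
    (ih : ∀ (Γ Y : Type) [Group Γ] [Finite Γ] [Group.IsSolvable Γ] [AddCommGroup Y] [Module k Y]
      [FiniteDimensional k Y] [Nontrivial Y] (β : Representation k Γ Y),
      finrank k Y < finrank k V → Concl s θ β) : Concl s θ ρ := by
  by_cases h0 : scal ρ = ⊤
  · exact red_one ρ (dim_one_of_scal hρ h0)
  have := hρ.1
  obtain ⟨l, E, hl, hE, h1, h2, h3⟩ := exists_E ρ h0
  obtain ⟨W, _, _, _, τ, ι, hτ, hι, hc⟩ := exists_irr_sub (ρ.comp E.subtype)
  replace hc : ∀ (e : E) w, ι (τ e w) = ρ e (ι w) := hc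
  have := hτ.1
  have hZ := scal_eq hq h2 hι hc
  have hcm : commutator E ≤ scal τ := by
    rw [hZ]
    exact Subgroup.map_le_iff_le_comap.1 ((Subgroup.map_subtype_commutator E).le.trans h2)
  have hsq := sq hτ hcm
  have : Fact l.Prime := ⟨hl⟩
  obtain ⟨b, hb⟩ : ∃ b, finrank k W = l ^ b := by
    have hp : IsPGroup l (E ⧸ scal τ) := by
      intro x
      obtain ⟨x, rfl⟩ := QuotientGroup.mk_surjective x
      refine ⟨1, ?_⟩
      rw [pow_one, ← QuotientGroup.mk_pow, QuotientGroup.eq_one_iff, hZ]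
      exact h3 x x.2
    obtain ⟨m, hm⟩ := IsPGroup.iff_card.1 hp
    have : finrank k W ∣ l ^ m := by
      rw [← hm, ← Subgroup.index_eq_card, hsq]
      exact dvd_pow_self _ two_ne_zero
    obtain ⟨b, -, hb⟩ := (Nat.dvd_prime_pow hl).1 this
    exact ⟨b, hb⟩
  have hn1 : finrank k W ≠ 1 := by
    intro e
    rw [e, one_pow, Subgroup.index_eq_one, hZ, Subgroup.subgroupOf_eq_top] at hsq
    exact h1 hsq
  have hn0 : 0 < finrank k W := Module.finrank_pos
  have hconj : ∀ (g : G) {x : G} {c : k}, ρ x = c • (1 : Module.End k V) →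
      ρ (g * x * g⁻¹) = c • (1 : Module.End k V) := fun g x c h => by
    rw [map_mul, map_mul, h, mul_smul_comm, mul_one, smul_mul_assoc, ← map_mul, mul_inv_cancel,
      map_one]
  obtain ⟨Γ, _, _, π, α, hC⟩ := cover E hτ (fun g => by
    have hi : Irr (τ.comp (MulAut.conjNormal g : MulAut E).toMonoidHom) :=
      (irr_comp _ (MulAut.conjNormal g : MulAut E).surjective τ).2 hτ
    refine sn hτ hi (scal τ) (fun z hz => ?_) (li τ _ hcm fun x hx => ?_)
    · rw [hZ] at hz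
      obtain ⟨c, hz⟩ := hz
      exact ⟨c, scal_sub hι hc hz, scal_sub hι hc (hconj g hz)⟩
    · obtain ⟨c, hc'⟩ := schurK hτ (τ x) hx
      have hc0 : c ≠ 0 := by
        rintro rfl
        have : τ x⁻¹ * τ x = 1 := by rw [← map_mul, inv_mul_cancel, map_one]
        rw [hc', zero_smul, mul_zero] at this
        exact zero_ne_one this
      exact ⟨Units.mk0 c hc0, hc'⟩)
  have := hC.solvable
  obtain ⟨Y, _, _, _, β, hd, hβ⟩ := tens hρ hτ ι hι hc hC
  have hV : 0 < finrank k V := Module.finrank_pos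
  have hY0 : 0 < finrank k Y := Nat.pos_of_ne_zero fun e => by rw [e] at hd; omega
  have : Nontrivial Y := Module.finrank_pos_iff.1 hY0
  have hI := ih Γ Y β (by
    have : 2 ≤ finrank k W := by omega
    nlinarith)
  have hker : ∀ γ (c : kˣ), π γ = 1 → α γ = (c : k) • (1 : Module.End k W) →
      β γ = ((c⁻¹ : kˣ) : k) • (1 : Module.End k Y) := fun γ c h1 h2 => by
    have := hβ γ c 1 h2 (by rw [h1]; simp)
    rwa [one_mul] at this
  have hsc : ∀ (g : G) (c : kˣ), ρ g = (c : k) • (1 : Module.End k V) →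
      ∃ γ, π γ = g ∧ β γ = (c : k) • (1 : Module.End k Y) ∧ α γ = 1 := fun g c hg => by
    obtain ⟨γ, h1, h2⟩ := hC.one g (fun e => LinearMap.ext fun w => hι (by
      rw [hc, hc]
      congr 1
      change ρ (g * e * g⁻¹) = ρ e
      rw [map_mul, map_mul, hg, smul_mul_assoc, one_mul, smul_mul_assoc, ← mul_smul_comm,
        ← one_mul (ρ g⁻¹), ← smul_mul_assoc, ← hg, ← map_mul, mul_inv_cancel, map_one, mul_one]))
    refine ⟨γ, h1, ?_, h2⟩
    have := hβ γ 1 c (by rw [h2]; simp) (h1 ▸ hg)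
    simpa using this
  by_cases hls : l = s
  · subst hls
    obtain ⟨X, _, _, _, ξ, hX, hξ⟩ := lift hθ α hb hC.det (E.comap π) (by
      refine ⟨hτ.1, fun U hU => hτ.2 U fun e v hv => ?_⟩
      obtain ⟨γ, hγ⟩ := hC.surj e
      have hm : π γ ∈ E := hγ ▸ e.2
      obtain ⟨c, hc'⟩ := hC.over hτ γ hm
      have h4 : α γ v ∈ U := hU ⟨γ, hm⟩ v hv
      have h5 : (⟨π γ, hm⟩ : E) = e := Subtype.ext hγ
      rw [hc', h5, LinearMap.smul_apply] at h4
      exact (U.smul_mem_iff c.ne_zero).1 h4) (by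
      intro γ hγ
      have h4 : π γ ∈ ⁅E, E⁆ := by
        have := Subgroup.mem_map_of_mem π hγ
        rwa [Subgroup.map_commutator, Subgroup.map_comap_eq_self_of_surjective hC.surj] at this
      have hm : π γ ∈ E := Subgroup.commutator_le_left E E h4
      obtain ⟨c, hc'⟩ := hC.over hτ γ hm
      obtain ⟨d, hd'⟩ := h2 h4
      exact ⟨c * d, by rw [hc', scal_sub hι hc (e := ⟨π γ, hm⟩) hd', smul_smul, Units.val_mul]⟩)
    refine desc ρ π hC.surj β hI ξ hd hn0 hX (hb ▸ dvd_rfl) (fun γ hγ => ?_) (fun g c hg => ?_)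
    · obtain ⟨c, -, hc'⟩ := hC.ker γ hγ
      exact ⟨c, hker γ c hγ hc', hξ γ c hc'⟩
    · obtain ⟨γ, h4, h5, h6⟩ := hsc g c hg
      exact ⟨γ, h4, h5, by simpa using hξ γ 1 (by rw [h6]; simp)⟩
  · refine desc (f := 0) ρ π hC.surj β hI (Representation.trivial ℂ Γ ℂ) hd hn0 (by simp)
      (by simp) (fun γ hγ => ?_) (fun g c hg => ?_)
    · obtain ⟨c, hc1, hc'⟩ := hC.ker γ hγ
      refine ⟨c, hker γ c hγ hc', ?_⟩
      rw [hθ.triv c _ (fun h => hls ?_) hc1]
      · ext; simp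
      · rw [hb] at h
        exact ((Nat.prime_dvd_prime_iff_eq hs.out hl).1 (hs.out.dvd_of_dvd_pow h)).symm
    · obtain ⟨γ, h4, h5, -⟩ := hsc g c hg
      exact ⟨γ, h4, h5, by ext; simp⟩

theorem fs_concl [IsAlgClosed k] {s : ℕ} [Fact s.Prime] {θ : kˣ →* ℂˣ} (hθ : Th s θ) (n : ℕ) :
    ∀ (G V : Type) [Group G] [Finite G] [Group.IsSolvable G] [AddCommGroup V] [Module k V]
      [FiniteDimensional k V] [Nontrivial V] (ρ : Representation k G V),
      finrank k V = n → Concl s θ ρ := by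
  induction n using Nat.strong_induction_on with
  | _ n ih =>
  intro G V _ _ _ _ _ _ _ ρ hn
  by_cases hρ : Irr ρ
  · obtain ⟨H, W, _, _, _, σ, ι, hσ, hq, hd, hs, hι, hc⟩ := primk hρ
    refine red_ind ρ H σ ι hd hs hι hc (fs_prim hθ hσ hq fun Γ Y _ _ _ _ _ _ _ β h => ?_)
    exact ih _ (h.trans_le (hn ▸ LinearMap.finrank_le_finrank_of_injective hι)) Γ Y β rfl
  · obtain ⟨W, _, _, _, _, τ, h1, h2, h3⟩ := red_piece (s := s) ρ hρ
    obtain ⟨U, M, _, _, _, σ, e, h4, h5, h6, h7⟩ := ih _ (hn ▸ h1) G W τ rfl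
    exact ⟨U, M, _, _, inferInstance, σ, e, h4.trans h1.le, h5, h2 e h6,
      fun g c hg => h7 g c (h3 g c hg)⟩

theorem fs {k : Type} [Field k] [IsAlgClosed k] (s : ℕ) [Fact s.Prime] (th : kˣ →* ℂˣ)
    (h1 : ∀ (c : kˣ) (e : ℕ), c ^ s ^ e = 1 → th c = 1 → c = 1)
    (h2 : ∀ (c : kˣ) (n : ℕ), ¬ s ∣ n → c ^ n = 1 → th c = 1)
    {L W : Type} [Group L] [Finite L] [Group.IsSolvable L] [AddCommGroup W] [Module k W]
    [FiniteDimensional k W] [Nontrivial W] (ρ : Representation k L W) :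
    ∃ (U : Subgroup L) (M : Type) (_ : AddCommGroup M) (_ : Module ℂ M)
      (_ : FiniteDimensional ℂ M) (σ : Representation ℂ U M) (e : ℕ),
      U.index * finrank ℂ M ≤ finrank k W ∧ finrank ℂ M = s ^ e ∧ s ^ e ∣ finrank k W ∧
      ∀ (g : L) (c : kˣ), ρ g = (c : k) • (1 : Module.End k W) →
        ∃ h : g ∈ U, σ ⟨g, h⟩ = (th c : ℂ) • (1 : Module.End ℂ M) :=
  fs_concl ⟨h1, h2⟩ _ L W ρ rfl

end Pool.Agent.MP_f0649b_al.FS
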