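import Pool.Agent.MP_f0649b_al.FS.PrimK

/-! The finite cover that extends an invariant module. -/

open Module

namespace Pool.Agent.MP_f0649b_al.FS

variable {k G V W : Type} [Field k] [Group G] [AddCommGroup V] [Module k V] [AddCommGroup W]
  [Module k W]

theorem Cover_cj (E : Subgroup G) [hE : E.Normal] (g : G) (e : E) :
    (⟨g * e * g⁻¹, hE.conj_mem _ e.2 _⟩ : E) = MulAut.conjNormal g e :=
  Subtype.ext (MulAut.conjNormal_apply g e).symm

/-- the pairs that intertwine the module with its conjugate -/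
def Cover_grp (E : Subgroup G) [E.Normal] (τ : Representation k E W) :
    Subgroup (G × (Module.End k W)ˣ) where
  carrier := {x | (∀ e : E, (x.2 : Module.End k W) * τ e = τ (MulAut.conjNormal x.1 e) * x.2) ∧
    LinearMap.det (x.2 : Module.End k W) = 1}
  one_mem' := ⟨fun e => by simp, by simp⟩
  mul_mem' := by
    rintro x y ⟨hx, hx'⟩ ⟨hy, hy'⟩
    refine ⟨fun e => ?_, ?_⟩
    · rw [Prod.snd_mul, Prod.fst_mul, Units.val_mul, mul_assoc, hy, ← mul_assoc, hx, map_mul,
        MulAut.mul_apply, mul_assoc]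
    · rw [Prod.snd_mul, Units.val_mul, map_mul, hx', hy', mul_one]
  inv_mem' := by
    rintro x ⟨hx, hx'⟩
    refine ⟨fun e => ?_, ?_⟩
    · have h := hx (MulAut.conjNormal x.1⁻¹ e)
      rw [← MulAut.mul_apply, ← map_mul, mul_inv_cancel, map_one, MulAut.one_apply] at h
      rw [Prod.snd_inv, Prod.fst_inv, Units.inv_mul_eq_iff_eq_mul, ← mul_assoc, h,
        Units.mul_inv_cancel_right]
    · have h := congrArg LinearMap.det (Units.mul_inv x.2)
      rw [map_one] at h
      rwa [map_mul, hx', one_mul] at h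

theorem Cover_finite [Finite G] [FiniteDimensional k W] [Nontrivial W] {E : Subgroup G} [E.Normal]
    {τ : Representation k E W} {Γ : Type} [Group Γ] {π : Γ →* G} {α : Representation k Γ W}
    (h : Cov E τ π α) : Finite Γ := by
  have : NeZero (finrank k W) := ⟨Module.finrank_pos.ne'⟩
  refine π.finite_iff_finite_ker_range.2 ⟨?_, inferInstance⟩
  choose c hc using fun γ : π.ker => h.ker γ γ.2
  refine Finite.of_injective (β := rootsOfUnity (finrank k W) k)
    (fun γ => ⟨c γ, (hc γ).1⟩) fun γ γ' e => Subtype.ext (h.inj _ _ (γ.2.trans γ'.2.symm) ?_)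
  rw [(hc γ).2, (hc γ').2, show c γ = c γ' from congrArg Subtype.val e]

theorem cover [IsAlgClosed k] [Finite G] [FiniteDimensional k W] (E : Subgroup G) [hE : E.Normal]
    {τ : Representation k E W} (hτ : Irr τ)
    (hA : ∀ g : G, ∃ A : W ≃ₗ[k] W, ∀ (e : E) w,
      A (τ e w) = τ ⟨g * e * g⁻¹, hE.conj_mem _ e.2 _⟩ (A w)) :
    ∃ (Γ : Type) (_ : Group Γ) (_ : Finite Γ) (π : Γ →* G) (α : Representation k Γ W),
      Cov E τ π α := by
  have := hτ.1
  have hn : 0 < finrank k W := Module.finrank_pos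
  have key : Cov E τ ((MonoidHom.fst _ _).comp (Cover_grp E τ).subtype)
      ((Units.coeHom (Module.End k W)).comp ((MonoidHom.snd _ _).comp (Cover_grp E τ).subtype)) := by
    refine ⟨fun g => ?_, fun γ γ' h1 h2 => Subtype.ext (Prod.ext h1 (Units.ext h2)),
      fun γ e => ?_, fun γ => γ.2.2, fun γ hγ => ?_, fun g hg => ?_⟩
    · obtain ⟨A, hA⟩ := hA g
      have hd : LinearMap.det (A : Module.End k W) ≠ 0 := (LinearEquiv.isUnit_det' A).ne_zero
      obtain ⟨c, hc⟩ := IsAlgClosed.exists_pow_nat_eq (LinearMap.det (A : Module.End k W))⁻¹ hn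
      have h1 : LinearMap.det (c • (A : Module.End k W)) = 1 := by
        rw [LinearMap.det_smul, hc, inv_mul_cancel₀ hd]
      have h2 : IsUnit (c • (A : Module.End k W)) :=
        (LinearMap.isUnit_iff_isUnit_det _).2 (h1 ▸ isUnit_one)
      refine ⟨⟨(g, h2.unit), fun e => ?_, h1⟩, rfl⟩
      change (c • (A : Module.End k W)) * τ e = τ (MulAut.conjNormal g e) * (c • (A : Module.End k W))
      rw [smul_mul_assoc, mul_smul_comm, ← Cover_cj]
      congr 1
      ext w
      exact hA e w
    · rw [Cover_cj]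
      exact γ.2.1 e
    · have h1 : γ.1.1 = 1 := hγ
      obtain ⟨c, hc⟩ := schurK hτ (γ.1.2 : Module.End k W) fun e => by
        have h2 := γ.2.1 e
        rwa [h1, map_one, MulAut.one_apply] at h2
      have h2 : c ^ finrank k W = 1 := by
        have h3 := γ.2.2
        rwa [hc, LinearMap.det_smul, map_one, mul_one] at h3
      have h3 : c ≠ 0 := by
        rintro rfl
        rw [zero_pow hn.ne'] at h2
        exact zero_ne_one h2
      exact ⟨Units.mk0 c h3, Units.ext (by simpa using h2), hc⟩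
    · refine ⟨⟨(g, 1), fun e => ?_, by simp⟩, rfl, rfl⟩
      rw [← Cover_cj, hg e]
      simp
  exact ⟨Cover_grp E τ, inferInstance, Cover_finite key, _, _, key⟩

theorem Cov.central {E : Subgroup G} [E.Normal] {τ : Representation k E W} {Γ : Type} [Group Γ]
    {π : Γ →* G} {α : Representation k Γ W} (h : Cov E τ π α) {γ : Γ}
    (h1 : π γ ∈ Subgroup.center G) (h2 : γ ∈ scal α) : γ ∈ Subgroup.center Γ := by
  obtain ⟨c, hc⟩ := h2
  rw [Subgroup.mem_center_iff] at h1 ⊢
  intro γ'
  refine h.inj _ _ ?_ ?_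
  · rw [map_mul, map_mul, h1]
  · rw [map_mul, map_mul, hc, mul_smul_comm, smul_mul_assoc, mul_one, one_mul]

theorem Cov.solvable [Group.IsSolvable G] {E : Subgroup G} [E.Normal] {τ : Representation k E W}
    {Γ : Type} [Group Γ] {π : Γ →* G} {α : Representation k Γ W} (h : Cov E τ π α) :
    Group.IsSolvable Γ := by
  have : Group.IsSolvable (Subgroup.center Γ) := Group.isSolvable_of_comm fun a b =>
    Subtype.ext (Subgroup.mem_center_iff.1 b.2 a)
  refine Group.isSolvable_of_ker_le_range (Subgroup.center Γ).subtype π fun γ hγ => ?_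
  rw [Subgroup.range_subtype]
  obtain ⟨c, -, hc⟩ := h.ker γ hγ
  exact h.central (by rw [show π γ = 1 from hγ]; exact one_mem _) ⟨c, hc⟩

/-- elements over `E` act as multiples of the given operators -/
theorem Cov.over [IsAlgClosed k] [FiniteDimensional k W] {E : Subgroup G} [E.Normal]
    {τ : Representation k E W} (hτ : Irr τ) {Γ : Type} [Group Γ] {π : Γ →* G}
    {α : Representation k Γ W} (h : Cov E τ π α) (γ : Γ) (hγ : π γ ∈ E) :
    ∃ c : kˣ, α γ = (c : k) • τ ⟨π γ, hγ⟩ := by
  have := hτ.1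
  obtain ⟨c, hc⟩ := schurK hτ (τ (⟨π γ, hγ⟩ : E)⁻¹ * α γ) fun e => by
    rw [mul_assoc, h.conj, ← mul_assoc, ← mul_assoc, ← map_mul, ← map_mul]
    congr 2
    ext
    simp [mul_assoc]
  have h1 : α γ = c • τ ⟨π γ, hγ⟩ := by
    have h2 := congrArg (τ ⟨π γ, hγ⟩ * ·) hc
    rwa [← mul_assoc, ← map_mul, mul_inv_cancel, map_one, one_mul, mul_smul_comm, mul_one] at h2
  have h2 : c ≠ 0 := by
    rintro rfl
    have h3 : α γ⁻¹ * α γ = 1 := by rw [← map_mul, inv_mul_cancel, map_one]
    rw [h1, zero_smul, mul_zero] at h3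
    exact zero_ne_one h3
  exact ⟨Units.mk0 c h2, h1⟩

end Pool.Agent.MP_f0649b_al.FS
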