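import Pool.Agent.MP_f0649b_al.Defs

/-! Lifting representations to characteristic zero: definitions. -/

open Module

namespace Pool.Agent.MP_f0649b_al.FS

variable {k G V W : Type} [Field k] [Group G] [AddCommGroup V] [Module k V] [AddCommGroup W]
  [Module k W]

/-- the elements that act as scalars -/
def scal (ρ : Representation k G V) : Subgroup G where
  carrier := {g | ∃ c : kˣ, ρ g = (c : k) • (1 : Module.End k V)}
  one_mem' := ⟨1, by simp⟩
  mul_mem' := by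
    rintro a b ⟨c, hc⟩ ⟨d, hd⟩
    exact ⟨c * d, by simp [hc, hd, smul_smul, mul_comm]⟩
  inv_mem' := by
    rintro a ⟨c, hc⟩
    refine ⟨c⁻¹, ?_⟩
    have h : ρ a⁻¹ * ρ a = 1 := by rw [← map_mul, inv_mul_cancel, map_one]
    rw [hc, mul_smul_comm, mul_one] at h
    rw [← h, smul_smul]
    simp

theorem mem_scal {ρ : Representation k G V} {g : G} :
    g ∈ scal ρ ↔ ∃ c : kˣ, ρ g = (c : k) • (1 : Module.End k V) := Iff.rfl

instance scal_normal (ρ : Representation k G V) : (scal ρ).Normal := ⟨by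
  rintro a ⟨c, hc⟩ g
  refine ⟨c, ?_⟩
  rw [map_mul, map_mul, hc, mul_smul_comm, mul_one, smul_mul_assoc, ← map_mul, mul_inv_cancel,
    map_one]⟩

/-- normal subgroups with commutative image act by scalars -/
def QP (ρ : Representation k G V) : Prop :=
  ∀ A : Subgroup G, A.Normal → (∀ x ∈ A, ∀ y ∈ A, Commute (ρ x) (ρ y)) → A ≤ scal ρ

/-- the transport of roots of unity -/
structure Th (s : ℕ) (θ : kˣ →* ℂˣ) : Prop where
  inj : ∀ (c : kˣ) (e : ℕ), c ^ s ^ e = 1 → θ c = 1 → c = 1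
  triv : ∀ (c : kˣ) (n : ℕ), ¬ s ∣ n → c ^ n = 1 → θ c = 1

/-- the conclusion of the lifting theorem -/
def Concl (s : ℕ) (θ : kˣ →* ℂˣ) (ρ : Representation k G V) : Prop :=
  ∃ (U : Subgroup G) (M : Type) (_ : AddCommGroup M) (_ : Module ℂ M) (_ : FiniteDimensional ℂ M)
    (σ : Representation ℂ U M) (e : ℕ), U.index * finrank ℂ M ≤ finrank k V ∧
    finrank ℂ M = s ^ e ∧ s ^ e ∣ finrank k V ∧
    ∀ (g : G) (c : kˣ), ρ g = (c : k) • (1 : Module.End k V) →
      ∃ h : g ∈ U, σ ⟨g, h⟩ = (θ c : ℂ) • (1 : Module.End ℂ M)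

/-- a finite cover of `G` acting on an irreducible module of a normal subgroup -/
structure Cov (E : Subgroup G) [hE : E.Normal] (τ : Representation k E W) {Γ : Type} [Group Γ]
    (π : Γ →* G) (α : Representation k Γ W) : Prop where
  surj : Function.Surjective π
  inj : ∀ γ γ', π γ = π γ' → α γ = α γ' → γ = γ'
  conj : ∀ γ (e : E), α γ * τ e = τ ⟨π γ * e * (π γ)⁻¹, hE.conj_mem _ e.2 _⟩ * α γ
  det : ∀ γ, LinearMap.det (α γ) = 1
  ker : ∀ γ, π γ = 1 → ∃ c : kˣ, c ^ finrank k W = 1 ∧ α γ = (c : k) • (1 : Module.End k W)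
  one : ∀ g : G, (∀ e : E, τ ⟨g * e * g⁻¹, hE.conj_mem _ e.2 _⟩ = τ e) → ∃ γ, π γ = g ∧ α γ = 1

end Pool.Agent.MP_f0649b_al.FS
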