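import Pool.Agent.MP_f0649b_al.FS.Cover

/-! Splitting the cover by transfer. -/

open Module

namespace Pool.Agent.MP_f0649b_al.FS

variable {k G V W : Type} [Field k] [Group G] [AddCommGroup V] [Module k V] [AddCommGroup W]
  [Module k W]

theorem Split_uniq [Nontrivial V] {H : Type} [Group H] (σ : Representation k H V) (h : H)
    {c d : k} (e : c • σ h = d • σ h) : c = d := by
  have h1 : σ h * σ h⁻¹ = 1 := by rw [← map_mul, mul_inv_cancel, map_one]
  have h2 : c • (1 : Module.End k V) = d • (1 : Module.End k V) := by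
    rw [← h1, ← smul_mul_assoc, ← smul_mul_assoc, e]
  obtain ⟨v, hv⟩ := exists_ne (0 : V)
  have h3 : c • v = d • v := by simpa using LinearMap.congr_fun h2 v
  exact smul_left_injective k hv h3

theorem Split_desc {Γ M : Type} [Group Γ] [Monoid M] (π : Γ →* G) (hπ : Function.Surjective π)
    (β : Γ →* M) (hβ : ∀ γ, π γ = 1 → β γ = 1) : ∃ ξ : G →* M, ∀ γ, ξ (π γ) = β γ := by
  have key : ∀ γ δ, π γ = π δ → β γ = β δ := by
    intro γ δ h
    have h1 : β (δ⁻¹ * γ) = 1 := hβ _ (by rw [map_mul, map_inv, h, inv_mul_cancel])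
    calc β γ = β (δ * (δ⁻¹ * γ)) := by rw [mul_inv_cancel_left]
      _ = β δ := by rw [map_mul, h1, mul_one]
  choose f hf using hπ
  refine ⟨{ toFun := fun g => β (f g), map_one' := hβ _ (hf 1), map_mul' := ?_ }, ?_⟩
  · intro a b
    rw [← map_mul]
    exact key _ _ (by rw [map_mul, hf, hf, hf])
  · intro γ
    exact key _ _ (hf _)

theorem Split_psi {Γ A : Type} [Group Γ] [CommGroup A] (H : Subgroup Γ) [H.FiniteIndex]
    (φ : H →* A) {n : ℕ} (hn : n ≠ 0) (hc : Nat.Coprime H.index n) :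
    ∃ ψ : Γ →* A, ∀ (γ : Γ) (hγ : γ ∈ H), γ ∈ Subgroup.center Γ → φ ⟨γ, hγ⟩ ^ n = 1 →
      ψ γ = φ ⟨γ, hγ⟩ := by
  obtain ⟨u, -, hu⟩ := Nat.exists_mul_mod_eq_of_coprime 1 hc hn
  refine ⟨(MonoidHom.transfer φ) ^ u, ?_⟩
  intro γ hγ hz hp
  have key : ∀ (m : ℕ) (g₀ : Γ), g₀⁻¹ * γ ^ m * g₀ ∈ H → g₀⁻¹ * γ ^ m * g₀ = γ ^ m := by
    intro m g₀ _
    have h1 := Subgroup.mem_center_iff.1 (Subgroup.pow_mem _ hz m) g₀
    rw [mul_assoc, ← h1, inv_mul_cancel_left]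
  have h2 : MonoidHom.transfer φ γ = φ ⟨γ, hγ⟩ ^ H.index := by
    rw [MonoidHom.transfer_eq_pow φ γ key, ← map_pow]
    rfl
  rw [MonoidHom.pow_apply, h2, ← pow_mul, pow_eq_pow_mod _ hp, hu, ← pow_eq_pow_mod _ hp, pow_one]

theorem Split_phi [IsAlgClosed k] [FiniteDimensional k W] (P E : Subgroup G) [hE : E.Normal]
    (hEP : E ≤ P) (σ : Representation k P W) (hτ : Irr (σ.comp (Subgroup.inclusion hEP)))
    {Γ : Type} [Group Γ] {π : Γ →* G} {α : Representation k Γ W}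
    (h : Cov E (σ.comp (Subgroup.inclusion hEP)) π α) :
    ∃ φ : P.comap π →* kˣ, ∀ γ : P.comap π, α γ = (φ γ : k) • σ ⟨π γ, γ.2⟩ := by
  have : Nontrivial W := hτ.1
  have ex : ∀ γ : P.comap π, ∃ c : kˣ, α γ = (c : k) • σ ⟨π γ, γ.2⟩ := by
    intro γ
    set p : P := ⟨π γ, γ.2⟩ with hp
    have hpp : σ p * σ p⁻¹ = 1 := by rw [← map_mul, mul_inv_cancel, map_one]
    obtain ⟨c, hc⟩ := schurK hτ (σ p⁻¹ * α γ) (by
      intro e
      have h1 := h.conj γ e
      rw [mul_assoc, h1, ← mul_assoc, ← mul_assoc]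
      congr 1
      change σ p⁻¹ * σ _ = σ _ * σ p⁻¹
      rw [← map_mul, ← map_mul]
      congr 1
      apply Subtype.ext
      simp [hp, mul_assoc])
    have h2 : α γ = c • σ p := by
      calc α γ = σ p * (σ p⁻¹ * α γ) := by rw [← mul_assoc, hpp, one_mul]
        _ = c • σ p := by rw [hc, mul_smul_comm, mul_one]
    have hc0 : c ≠ 0 := by
      rintro rfl
      have h3 : α γ * α (γ : Γ)⁻¹ = 1 := by rw [← map_mul, mul_inv_cancel, map_one]
      rw [h2, zero_smul, zero_mul] at h3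
      exact zero_ne_one h3
    exact ⟨Units.mk0 c hc0, h2⟩
  choose f hf using ex
  refine ⟨MonoidHom.mk' f ?_, hf⟩
  intro a b
  apply Units.ext
  apply Split_uniq σ ⟨π (a * b : P.comap π), (a * b).2⟩
  have h1 : α ((a * b : P.comap π) : Γ) = α a * α b := map_mul α (a : Γ) (b : Γ)
  rw [← hf, h1, hf, hf, smul_mul_assoc, mul_smul_comm, smul_smul, ← map_mul, Units.val_mul]
  congr 2
  apply Subtype.ext
  simp

theorem split [Finite G] {s b : ℕ} [Fact s.Prime] (P : Sylow s G) (E : Subgroup G)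
    [hE : E.Normal] (hEP : E ≤ P) {X : Type} [AddCommGroup X] [Module ℂ X]
    [FiniteDimensional ℂ X] (σ : Representation ℂ (P : Subgroup G) X) (hn : finrank ℂ X = s ^ b)
    (hτ : Irr (σ.comp (Subgroup.inclusion hEP)))
    (hA : ∀ g : G, ∃ A : X ≃ₗ[ℂ] X, ∀ (e : E) w,
      A (σ ⟨e, hEP e.2⟩ w) = σ ⟨g * e * g⁻¹, hEP (hE.conj_mem _ e.2 _)⟩ (A w)) :
    ∃ ξ : Representation ℂ G X, ∀ (g : (P : Subgroup G)) (c : ℂˣ),
      (g : G) ∈ Subgroup.center G → c ^ s ^ b = 1 → σ g = (c : ℂ) • (1 : Module.End ℂ X) →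
      ξ g = (c : ℂ) • (1 : Module.End ℂ X) := by
  have : Nontrivial X := hτ.1
  have hs : s.Prime := Fact.out
  obtain ⟨Γ, _, _, π, α, h⟩ := cover E hτ hA
  obtain ⟨φ, hφ⟩ := Split_phi (P : Subgroup G) E hEP σ hτ h
  have hidx : ((P : Subgroup G).comap π).index = (P : Subgroup G).index :=
    Subgroup.index_comap_of_surjective _ h.surj
  have hcop : Nat.Coprime ((P : Subgroup G).comap π).index (s ^ b) := by
    rw [hidx]
    exact Nat.Coprime.pow_right _ ((Nat.Prime.coprime_iff_not_dvd hs).2 P.not_dvd_index).symm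
  obtain ⟨ψ, hψ⟩ := Split_psi ((P : Subgroup G).comap π) φ (pow_ne_zero b hs.ne_zero) hcop
  let β : Γ →* Module.End ℂ X :=
    { toFun := fun γ => (((ψ γ)⁻¹ : ℂˣ) : ℂ) • α γ
      map_one' := by simp
      map_mul' := by
        intro a b
        rw [map_mul, map_mul, smul_mul_assoc, mul_smul_comm, smul_smul, mul_inv, Units.val_mul] }
  have hβ : ∀ γ, π γ = 1 → β γ = 1 := by
    intro γ hγ
    obtain ⟨c, hc, hα⟩ := h.ker γ hγ
    have hm : γ ∈ (P : Subgroup G).comap π := by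
      rw [Subgroup.mem_comap, hγ]
      exact Subgroup.one_mem _
    have hz : γ ∈ Subgroup.center Γ :=
      h.central (by rw [hγ]; exact Subgroup.one_mem _) ⟨c, hα⟩
    have h1 : (⟨π γ, hm⟩ : (P : Subgroup G)) = 1 := Subtype.ext hγ
    have h2 : φ ⟨γ, hm⟩ = c := by
      apply Units.ext
      apply Split_uniq σ 1
      have h3 := hφ ⟨γ, hm⟩
      change α γ = _ • σ ⟨π γ, hm⟩ at h3
      rw [h1] at h3
      rw [← h3, hα, map_one]
    have h4 : ψ γ = c := by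
      rw [hψ γ hm hz (by rw [h2, ← hn, hc]), h2]
    change (((ψ γ)⁻¹ : ℂˣ) : ℂ) • α γ = 1
    rw [h4, hα, smul_smul]
    simp
  obtain ⟨ξ, hξ⟩ := Split_desc π h.surj β hβ
  refine ⟨ξ, ?_⟩
  intro g c hg hc hσ
  obtain ⟨γ, hγ, hα⟩ := h.one (g : G) (by
    intro e
    congr 1
    apply Subtype.ext
    have h1 := Subgroup.mem_center_iff.1 hg e
    change (g : G) * e * (g : G)⁻¹ = e
    rw [← h1, mul_inv_cancel_right])
  have hm : γ ∈ (P : Subgroup G).comap π := by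
    rw [Subgroup.mem_comap, hγ]
    exact g.2
  have hz : γ ∈ Subgroup.center Γ :=
    h.central (by rw [hγ]; exact hg) ⟨1, by rw [hα]; simp⟩
  have h1 : (⟨π γ, hm⟩ : (P : Subgroup G)) = g := Subtype.ext hγ
  have h2 : φ ⟨γ, hm⟩ = c⁻¹ := by
    apply Units.ext
    apply Split_uniq σ g
    have h3 := hφ ⟨γ, hm⟩
    change α γ = _ • σ ⟨π γ, hm⟩ at h3
    rw [h1] at h3
    rw [← h3, hα, hσ, smul_smul]
    simp
  have h4 : ψ γ = c⁻¹ := by
    rw [hψ γ hm hz (by rw [h2, inv_pow, hc, inv_one]), h2]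
  rw [← hγ, hξ]
  change (((ψ γ)⁻¹ : ℂˣ) : ℂ) • α γ = _
  rw [h4, hα, inv_inv]

end Pool.Agent.MP_f0649b_al.FS
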