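import Pool.Agent.MP_f0649b_al.FS.LiftP
import Pool.Agent.MP_f0649b_al.FS.Split
import Pool.Agent.MP_f0649b_al.Quo

/-! Lifting a representation of prime power degree. -/

open Module

namespace Pool.Agent.MP_f0649b_al.FS

variable {k G V W : Type} [Field k] [Group G] [AddCommGroup V] [Module k V] [AddCommGroup W]
  [Module k W]

theorem Lift_central (α : Representation k G V) (hf : Function.Injective α) {g : G} {c : k}
    (h : α g = c • (1 : Module.End k V)) : g ∈ Subgroup.center G := by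
  rw [Subgroup.mem_center_iff]
  intro x
  apply hf
  rw [map_mul, map_mul, h, mul_smul_comm, smul_mul_assoc, mul_one, one_mul]

theorem Lift_irr {α : Representation k G V} {E P : Subgroup G} (hEP : E ≤ P)
    (hE : Irr (α.comp E.subtype)) : Irr (α.comp P.subtype) :=
  ⟨hE.1, fun U hU => hE.2 U fun g v hv => hU ⟨g, hEP g.2⟩ v hv⟩

theorem lift_faithful [IsAlgClosed k] [Finite G] [FiniteDimensional k V] {s b : ℕ} [Fact s.Prime]
    {θ : kˣ →* ℂˣ} (hθ : Th s θ) (α : Representation k G V) (hf : Function.Injective α)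
    (hn : finrank k V = s ^ b) (hd : ∀ g, LinearMap.det (α g) = 1) (E : Subgroup G) [E.Normal]
    (hE : Irr (α.comp E.subtype)) (hc : ⁅E, E⁆ ≤ scal α) :
    ∃ (X : Type) (_ : AddCommGroup X) (_ : Module ℂ X) (_ : FiniteDimensional ℂ X)
      (ξ : Representation ℂ G X), finrank ℂ X = s ^ b ∧
      ∀ (g : G) (c : kˣ), α g = (c : k) • (1 : Module.End k V) →
        ξ g = (θ c : ℂ) • (1 : Module.End ℂ X) := by
  have hV : Nontrivial V := hE.1
  obtain ⟨hEp, hZp⟩ := pgroup_of_span α hf hn hd E hc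
    (fun T hT => schurK hE T fun g => hT g g.2)
  obtain ⟨P, hEP⟩ := hEp.exists_le_sylow
  have hZP : scal α ≤ P := hZp.le_sylow_of_normal P
  have hfP : Function.Injective (α.comp (P : Subgroup G).subtype) :=
    hf.comp Subtype.val_injective
  obtain ⟨X, i1, i2, i3, σ, hσ, hX, hs⟩ := liftP (θ := θ) P.isPGroup' (Lift_irr hEP hE) hfP
  have hXn : Nontrivial X := hσ.1
  have hcE : commutator E ≤ scal (α.comp E.subtype) := by
    rw [commutator_def, Subgroup.commutator_le]
    intro x _ y _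
    obtain ⟨c, hc'⟩ := hc (Subgroup.commutator_mem_commutator x.2 y.2)
    exact ⟨c, hc'⟩
  have hsE : ∀ (g : E) (c : kˣ), (α.comp E.subtype) g = (c : k) • (1 : Module.End k V) →
      (σ.comp (Subgroup.inclusion hEP)) g = (θ c : ℂ) • (1 : Module.End ℂ X) :=
    fun g c h => hs (Subgroup.inclusion hEP g) c h
  obtain ⟨h1, h2, h3⟩ := liftE hθ hEp hE hcE (σ.comp (Subgroup.inclusion hEP)) hX hsE
  have hA : ∀ g : G, ∃ A : X ≃ₗ[ℂ] X, ∀ (e : E) w,
      A (σ ⟨e, hEP e.2⟩ w) =
        σ ⟨g * e * g⁻¹, hEP (Subgroup.Normal.conj_mem inferInstance _ e.2 _)⟩ (A w) := by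
    intro g
    have h2' : Irr ((σ.comp (Subgroup.inclusion hEP)).comp
        (MulAut.conjNormal g : MulAut E).toMonoidHom) :=
      (irr_comp _ (MulAut.conjNormal g : MulAut E).surjective _).2 h2
    obtain ⟨A, hA⟩ := sn h2 h2' (scal (α.comp E.subtype)) (by
      rintro z ⟨c, hz⟩
      refine ⟨θ c, hsE z c hz, ?_⟩
      have hzc : (z : G) ∈ Subgroup.center G := Lift_central α hf hz
      have hz' : (MulAut.conjNormal g : MulAut E) z = z := by
        apply Subtype.ext
        rw [MulAut.conjNormal_apply, Subgroup.mem_center_iff.1 hzc g, mul_inv_cancel_right]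
      change (σ.comp (Subgroup.inclusion hEP)) ((MulAut.conjNormal g : MulAut E) z) = _
      rw [hz']
      exact hsE z c hz) h3
    exact ⟨A, fun e w => hA e w⟩
  obtain ⟨ξ, hξ⟩ := split P E hEP σ (h1.trans hn) h2 hA
  refine ⟨X, i1, i2, i3, ξ, h1.trans hn, fun g c hg => ?_⟩
  have hgP : g ∈ (P : Subgroup G) := hZP ⟨c, hg⟩
  have hc1 : c ^ s ^ b = 1 := by
    have := hd g
    rw [hg, LinearMap.det_smul, map_one, mul_one, hn] at this
    exact Units.ext (by simpa using this)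
  exact hξ ⟨g, hgP⟩ (θ c) (Lift_central α hf hg) (by rw [← map_pow, hc1, map_one])
    (hs ⟨g, hgP⟩ c hg)

theorem lift [IsAlgClosed k] [Finite G] [FiniteDimensional k V] {s b : ℕ} [Fact s.Prime]
    {θ : kˣ →* ℂˣ} (hθ : Th s θ) (α : Representation k G V)
    (hn : finrank k V = s ^ b) (hd : ∀ g, LinearMap.det (α g) = 1) (E : Subgroup G) [E.Normal]
    (hE : Irr (α.comp E.subtype)) (hc : ⁅E, E⁆ ≤ scal α) :
    ∃ (X : Type) (_ : AddCommGroup X) (_ : Module ℂ X) (_ : FiniteDimensional ℂ X)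
      (ξ : Representation ℂ G X), finrank ℂ X = s ^ b ∧
      ∀ (g : G) (c : kˣ), α g = (c : k) • (1 : Module.End k V) →
        ξ g = (θ c : ℂ) • (1 : Module.End ℂ X) := by
  obtain ⟨Q, j1, j2, π, ψ, hπ, hψ, hh⟩ := faithful_quot α
  have hN : (E.map π).Normal := Subgroup.Normal.map inferInstance π hπ
  have hd' : ∀ q, LinearMap.det (ψ q) = 1 := by
    intro q
    obtain ⟨g, rfl⟩ := hπ q
    rw [hh, hd]
  have hE' : Irr (ψ.comp (E.map π).subtype) := by
    refine ⟨hE.1, fun U hU => hE.2 U fun g v hv => ?_⟩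
    have := hU ⟨π g, Subgroup.mem_map_of_mem π g.2⟩ v hv
    change ψ (π g) v ∈ U at this
    rwa [hh] at this
  have hc' : ⁅E.map π, E.map π⁆ ≤ scal ψ := by
    rw [← Subgroup.map_commutator]
    rintro _ ⟨g, hg, rfl⟩
    obtain ⟨c, hc'⟩ := hc hg
    exact ⟨c, by rw [hh, hc']⟩
  obtain ⟨X, i1, i2, i3, ξ, h1, h2⟩ := lift_faithful hθ ψ hψ hn hd' (E.map π) hE' hc'
  exact ⟨X, i1, i2, i3, ξ.comp π, h1, fun g c hg => h2 (π g) c (by rw [hh, hg])⟩

end Pool.Agent.MP_f0649b_al.FS
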