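import Pool.Agent.MP_f0649b_al.FS.Defs

/-! Scalar elements. -/

open Module

namespace Pool.Agent.MP_f0649b_al.FS

variable {k G V W : Type} [Field k] [Group G] [AddCommGroup V] [Module k V] [AddCommGroup W]
  [Module k W]

theorem Scal_smul_inj [Nontrivial V] {c d : k}
    (h : c • (1 : Module.End k V) = d • (1 : Module.End k V)) : c = d := by
  obtain ⟨v, hv⟩ := exists_ne (0 : V)
  have h1 : c • v = d • v := by
    have := LinearMap.congr_fun h v
    simpa using this
  exact smul_left_injective k hv h1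

theorem dim_one_of_scal {ρ : Representation k G V} (hρ : Irr ρ) (h : scal ρ = ⊤) :
    finrank k V = 1 := by
  obtain ⟨hn, hU⟩ := hρ
  obtain ⟨v, hv⟩ := exists_ne (0 : V)
  rw [finrank_eq_one_iff_of_nonzero v hv]
  rcases hU (Submodule.span k {v}) (by
    intro g w hw
    obtain ⟨c, hc⟩ : g ∈ scal ρ := by rw [h]; trivial
    rw [hc]
    simpa using Submodule.smul_mem _ (c : k) hw) with h0 | h0
  · exfalso
    have : v ∈ Submodule.span k {v} := Submodule.mem_span_singleton_self v
    rw [h0] at this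
    exact hv (by simpa using this)
  · exact h0

theorem scal_of_nilpotent {ρ : Representation k G V} (hρ : QP ρ) (hG : Group.IsNilpotent G) :
    scal ρ = ⊤ := by
  by_contra h
  have : Nontrivial (G ⧸ scal ρ) := by
    rw [QuotientGroup.nontrivial_iff]
    exact h
  have hc := Group.IsNilpotent.center_ne_bot (G := G ⧸ scal ρ)
  obtain ⟨⟨x, hx⟩, hx1⟩ := Subgroup.ne_bot_iff_exists_ne_one.mp hc
  obtain ⟨y, rfl⟩ := QuotientGroup.mk'_surjective (scal ρ) x
  have hle : Subgroup.zpowers (QuotientGroup.mk' (scal ρ) y) ≤ Subgroup.center _ := by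
    rw [Subgroup.zpowers_le]; exact hx
  have hN : (Subgroup.zpowers (QuotientGroup.mk' (scal ρ) y)).Normal := ⟨by
    intro n hn g
    have := (Subgroup.mem_center_iff.mp (hle hn)) g
    rw [this, mul_inv_cancel_right]
    exact hn⟩
  have key : ∀ a ∈ (Subgroup.zpowers (QuotientGroup.mk' (scal ρ) y)).comap
      (QuotientGroup.mk' (scal ρ)), ∃ (m : ℤ) (c : k), ρ a = c • ρ (y ^ m) := by
    intro a ha
    obtain ⟨m, hm⟩ := Subgroup.mem_zpowers_iff.mp (Subgroup.mem_comap.mp ha)
    rw [← map_zpow] at hm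
    have h1 : (y ^ m)⁻¹ * a ∈ scal ρ := QuotientGroup.eq.mp hm
    obtain ⟨c, hc⟩ := h1
    refine ⟨m, c, ?_⟩
    have : a = y ^ m * ((y ^ m)⁻¹ * a) := by group
    rw [this, map_mul, hc, mul_smul_comm, mul_one]
  have hA := hρ _ (hN.comap (QuotientGroup.mk' (scal ρ))) (by
    intro a ha b hb
    obtain ⟨m, c, hc⟩ := key a ha
    obtain ⟨n, d, hd⟩ := key b hb
    rw [hc, hd]
    exact (((Commute.zpow_zpow_self y m n).map ρ).smul_left c).smul_right d)
  have hy : y ∈ scal ρ := hA (Subgroup.mem_comap.mpr (Subgroup.mem_zpowers _))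
  apply hx1
  ext
  exact (QuotientGroup.eq_one_iff y).mpr hy

theorem exists_chr [Nontrivial V] {ρ : Representation k G V} (h : scal ρ = ⊤) :
    ∃ ν : G →* kˣ, ∀ g, ρ g = (ν g : k) • (1 : Module.End k V) := by
  have h1 : ∀ g, ∃ c : kˣ, ρ g = (c : k) • (1 : Module.End k V) := fun g => by
    have : g ∈ scal ρ := by rw [h]; trivial
    exact this
  choose c hc using h1
  refine ⟨MonoidHom.mk' c ?_, hc⟩
  intro a b
  ext
  apply Scal_smul_inj (V := V)
  rw [← hc, map_mul, hc, hc]
  simp [smul_smul, mul_comm]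

theorem exists_E [Finite G] [Group.IsSolvable G] (ρ : Representation k G V) (h : scal ρ ≠ ⊤) :
    ∃ (l : ℕ) (E : Subgroup G), l.Prime ∧ E.Normal ∧ ¬ E ≤ scal ρ ∧ ⁅E, E⁆ ≤ scal ρ ∧
      ∀ b ∈ E, b ^ l ∈ scal ρ := by
  classical
  have hex : ∃ j, derivedSeries G j ≤ scal ρ := by
    obtain ⟨n, hn⟩ := (Group.isSolvable_def G).mp inferInstance
    exact ⟨n, by rw [hn]; exact bot_le⟩
  have h0 : Nat.find hex ≠ 0 := by
    intro h0
    have := Nat.find_spec hex
    rw [h0, derivedSeries_zero, top_le_iff] at this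
    exact h this
  obtain ⟨j, hj⟩ := Nat.exists_eq_succ_of_ne_zero h0
  have h1 : ⁅derivedSeries G j, derivedSeries G j⁆ ≤ scal ρ := by
    have := Nat.find_spec hex
    rw [hj] at this
    exact this
  have h2 : ¬ derivedSeries G j ≤ scal ρ := Nat.find_min hex (by omega)
  set B := derivedSeries G j with hB
  have hBn : B.Normal := derivedSeries_normal G j
  have hcomm : ∀ a ∈ B, ∀ b ∈ B,
      Commute (QuotientGroup.mk' (scal ρ) a) (QuotientGroup.mk' (scal ρ) b) := by
    intro a ha b hb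
    rw [← commutatorElement_eq_one_iff_commute, ← map_commutatorElement]
    exact (QuotientGroup.eq_one_iff _).mpr (h1 (Subgroup.commutator_mem_commutator ha hb))
  have hmem : ∀ a : G, a ∈ scal ρ ↔ QuotientGroup.mk' (scal ρ) a = 1 := fun a =>
    (QuotientGroup.eq_one_iff a).symm
  obtain ⟨b0, hb0, hb0'⟩ := SetLike.not_le_iff_exists.mp h2
  have hord : orderOf (QuotientGroup.mk' (scal ρ) b0) ≠ 1 := by
    intro h3
    exact hb0' ((hmem b0).mpr (orderOf_eq_one_iff.mp h3))
  obtain ⟨l, hl, m, hm⟩ := Nat.exists_prime_and_dvd hord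
  have hpos : 0 < orderOf (QuotientGroup.mk' (scal ρ) b0) := orderOf_pos _
  let E : Subgroup G :=
    { carrier := {b | b ∈ B ∧ b ^ l ∈ scal ρ}
      one_mem' := ⟨B.one_mem, by simp⟩
      mul_mem' := by
        rintro a b ⟨ha, ha'⟩ ⟨hb, hb'⟩
        refine ⟨B.mul_mem ha hb, ?_⟩
        rw [hmem, map_pow] at ha' hb' ⊢
        rw [map_mul, (hcomm a ha b hb).mul_pow, ha', hb', one_mul]
      inv_mem' := by
        rintro a ⟨ha, ha'⟩
        refine ⟨B.inv_mem ha, ?_⟩
        rw [inv_pow]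
        exact (scal ρ).inv_mem ha' }
  have hE : ∀ b, b ∈ E ↔ b ∈ B ∧ b ^ l ∈ scal ρ := fun b => Iff.rfl
  have hEB : E ≤ B := fun b hb => ((hE b).mp hb).1
  refine ⟨l, E, hl, ⟨?_⟩, ?_, (Subgroup.commutator_mono hEB hEB).trans h1,
    fun b hb => ((hE b).mp hb).2⟩
  · intro a ha g
    rw [hE] at ha ⊢
    refine ⟨hBn.conj_mem _ ha.1 g, ?_⟩
    rw [conj_pow]
    exact (scal_normal ρ).conj_mem _ ha.2 g
  · intro hle
    have hmE : b0 ^ m ∈ E := by
      rw [hE]
      refine ⟨B.pow_mem hb0 m, ?_⟩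
      rw [hmem, ← pow_mul, map_pow, mul_comm, ← hm]
      exact pow_orderOf_eq_one _
    have h4 := (hmem _).mp (hle hmE)
    rw [map_pow] at h4
    have h5 := orderOf_dvd_of_pow_eq_one h4
    have hm0 : 0 < m := by
      rcases Nat.eq_zero_or_pos m with h6 | h6
      · rw [hm, h6] at hpos; simp at hpos
      · exact h6
    have h6 := Nat.le_of_dvd hm0 h5
    rw [hm] at h6
    have := hl.two_le
    nlinarith

theorem Scal_pow_comm {A : Type} [Ring A] [Algebra k A] {x y : A} {c : k}
    (h : x * y = c • (y * x)) (n : ℕ) : x ^ n * y = c ^ n • (y * x ^ n) := by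
  induction n with
  | zero => simp
  | succ n ih =>
    rw [pow_succ' x n, mul_assoc, ih, mul_smul_comm, ← mul_assoc, h, smul_mul_assoc, smul_smul,
      pow_succ, mul_assoc]

theorem pgroup_of_span [Finite G] [FiniteDimensional k V] [Nontrivial V] {s b : ℕ}
    (α : Representation k G V) (hf : Function.Injective α) (hn : finrank k V = s ^ b)
    (hd : ∀ g, LinearMap.det (α g) = 1) (E : Subgroup G) (hc : ⁅E, E⁆ ≤ scal α)
    (hs : ∀ T : Module.End k V, (∀ e ∈ E, T * α e = α e * T) →
      ∃ c : k, T = c • (1 : Module.End k V)) : IsPGroup s E ∧ IsPGroup s (scal α) := by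
  have h1 : ∀ (g : G) (c : k), α g = c • (1 : Module.End k V) → c ^ s ^ b = 1 := by
    intro g c hg
    have := hd g
    rw [hg, LinearMap.det_smul, map_one, mul_one, hn] at this
    exact this
  have h2 : ∀ (g : G) (c : k), α g = c • (1 : Module.End k V) → g ^ s ^ b = 1 := by
    intro g c hg
    apply hf
    rw [map_pow, hg, smul_pow, h1 g c hg, one_pow, one_smul, map_one]
  constructor
  · rintro ⟨x, hx⟩
    refine ⟨b + b, ?_⟩
    obtain ⟨c, hc'⟩ := hs (α (x ^ s ^ b)) (by
      intro y hy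
      obtain ⟨c, hc'⟩ := hc (Subgroup.commutator_mem_commutator hx hy)
      have h3 : α x * α y = (c : k) • (α y * α x) := by
        have : x * y = (x * y * x⁻¹ * y⁻¹) * (y * x) := by group
        rw [commutatorElement_def] at hc'
        rw [← map_mul, this, map_mul, hc', map_mul, smul_mul_assoc, one_mul]
      rw [map_pow, Scal_pow_comm h3, h1 _ _ hc', one_smul])
    ext
    have := h2 _ _ hc'
    rw [← pow_mul, ← pow_add] at this
    simpa using this
  · rintro ⟨x, c, hx⟩
    refine ⟨b, ?_⟩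
    ext
    simpa using h2 _ _ hx

end Pool.Agent.MP_f0649b_al.FS
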