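import Pool.Agent.MP_f0649b_al.FS.SN
import Pool.Agent.MP_f0649b_al.FS.Scal
import Pool.Agent.MP_f0649b_al.Mackey

/-! Lifting for groups of prime power order. -/

open Module

namespace Pool.Agent.MP_f0649b_al.FS

variable {k G V W : Type} [Field k] [Group G] [AddCommGroup V] [Module k V] [AddCommGroup W]
  [Module k W]

theorem LiftP_eq {K X : Type} [Field K] [AddCommGroup X] [Module K X] [Nontrivial X] {c d : K}
    (h : c • (1 : Module.End K X) = d • (1 : Module.End K X)) : c = d := by
  obtain ⟨v, hv⟩ := exists_ne (0 : X)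
  have h1 : c • v = d • v := LinearMap.congr_fun h v
  exact smul_left_injective K hv h1

theorem liftP [IsAlgClosed k] [Finite G] [FiniteDimensional k V] {s : ℕ} [Fact s.Prime]
    {θ : kˣ →* ℂˣ} (hG : IsPGroup s G) {α : Representation k G V} (hα : Irr α)
    (hf : Function.Injective α) :
    ∃ (X : Type) (_ : AddCommGroup X) (_ : Module ℂ X) (_ : FiniteDimensional ℂ X)
      (σ : Representation ℂ G X), Irr σ ∧ finrank ℂ X ≤ finrank k V ∧
      ∀ (g : G) (c : kˣ), α g = (c : k) • (1 : Module.End k V) →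
        σ g = (θ c : ℂ) • (1 : Module.End ℂ X) := by
  obtain ⟨H, W, _, _, _, σ1, ι, hσ1, hq, hidx, hle, hι, hcomm⟩ := primk hα
  have ht := scal_of_nilpotent hq (hG.to_subgroup H).isNilpotent
  have := hσ1.1
  obtain ⟨ν, hν⟩ := exists_chr ht
  rw [dim_one_of_scal hσ1 ht, mul_one] at hidx
  have key := ind_lin H (θ.comp ν)
    (fun d => d = 0 ∨ ∃ (X : Type) (_ : AddCommGroup X) (_ : Module ℂ X)
      (_ : FiniteDimensional ℂ X) (σ : Representation ℂ G X), Irr σ ∧ finrank ℂ X ≤ d ∧
      ∀ (g : G) (c : kˣ), α g = (c : k) • (1 : Module.End k V) →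
        σ g = (θ c : ℂ) • (1 : Module.End ℂ X)) (Or.inl rfl) (by
      rintro a b (rfl | ⟨X, i1, i2, i3, σ, h1, h2, h3⟩) hb
      · rwa [zero_add]
      · exact Or.inr ⟨X, i1, i2, i3, σ, h1, h2.trans (Nat.le_add_right a b), h3⟩) (by
      intro V' _ _ _ ρ' hρ φ hφ e
      refine Or.inr ⟨V', _, _, inferInstance, ρ', hρ, le_rfl, fun g c hg => ?_⟩
      have cen : ∀ y, g * y = y * g := fun y => hf (by
        rw [map_mul, map_mul, hg, smul_mul_assoc, mul_smul_comm, one_mul, mul_one])
      obtain ⟨d, hd⟩ := schur hρ (ρ' g) fun y => by rw [← map_mul, ← map_mul, cen]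
      have gH : g ∈ H := hle ⟨c, hg⟩
      have e1 : ν ⟨g, gH⟩ = c := by
        obtain ⟨w, hw⟩ := exists_ne (0 : W)
        have h1 := hcomm ⟨g, gH⟩ w
        rw [hν, hg] at h1
        have h2 : ι ((ν ⟨g, gH⟩ : k) • w) = ι ((c : k) • w) := by
          rw [map_smul ι (c : k)]
          exact h1
        exact Units.ext (smul_left_injective k hw (hι h2))
      obtain ⟨v, hv⟩ : ∃ v, φ v ≠ 0 := by
        by_contra hn
        push Not at hn
        exact hφ (LinearMap.ext hn)
      have h3 := e ⟨g, gH⟩ v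
      rw [MonoidHom.comp_apply, e1] at h3
      have h4 : φ (ρ' g v) = d * φ v := by
        rw [hd]
        exact map_smul φ d v
      rw [hd, mul_right_cancel₀ hv (h4.symm.trans h3)])
  rcases key with h | h
  · exact absurd h Subgroup.index_ne_zero_of_finite
  · rwa [hidx] at h

theorem liftE [IsAlgClosed k] [Finite G] [FiniteDimensional k V] {s : ℕ} [Fact s.Prime]
    {θ : kˣ →* ℂˣ} (hθ : Th s θ) (hG : IsPGroup s G) {α : Representation k G V} (hα : Irr α)
    (hc : commutator G ≤ scal α) {X : Type} [AddCommGroup X] [Module ℂ X] [FiniteDimensional ℂ X]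
    [Nontrivial X] (σ : Representation ℂ G X) (hX : finrank ℂ X ≤ finrank k V)
    (hs : ∀ (g : G) (c : kˣ), α g = (c : k) • (1 : Module.End k V) →
      σ g = (θ c : ℂ) • (1 : Module.End ℂ X)) :
    finrank ℂ X = finrank k V ∧ Irr σ ∧
      LinearIndependent ℂ (fun c : G ⧸ scal α => σ c.out) := by
  have := hα.1
  have hZ : ∀ x, (∀ y, Commute (σ x) (σ y)) → x ∈ scal α := by
    intro x hx
    have h0 : ∀ y, α x * α y = α y * α x := by
      intro y
      have e0 : x * y = x * y * x⁻¹ * y⁻¹ * (y * x) := by group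
      obtain ⟨c, h1⟩ := hc
        (Subgroup.commutator_mem_commutator (Subgroup.mem_top x) (Subgroup.mem_top y))
      rw [commutatorElement_def] at h1
      have h2 : σ (x * y * x⁻¹ * y⁻¹) = 1 := by
        rw [map_mul, map_mul, map_mul, (hx y).eq, mul_assoc (σ y), ← map_mul σ x, mul_inv_cancel,
          map_one, mul_one, ← map_mul, mul_inv_cancel, map_one]
      have h3 : θ c = 1 := by
        refine Units.ext (LiftP_eq (X := X) ?_)
        rw [← hs _ c h1, h2, Units.val_one, one_smul]
      obtain ⟨e, he⟩ := hG (x * y * x⁻¹ * y⁻¹)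
      have h4 : c ^ s ^ e = 1 := by
        refine Units.ext (LiftP_eq (X := V) ?_)
        have h5 := congrArg α he
        rw [map_pow, h1, smul_pow, one_pow, map_one] at h5
        rw [Units.val_pow_eq_pow_val, h5, Units.val_one, one_smul]
      rw [hθ.inj c e h4 h3, Units.val_one, one_smul] at h1
      rw [← map_mul, e0, map_mul, h1, one_mul, map_mul]
    obtain ⟨c, h1⟩ := schurK hα (α x) h0
    have h2 : c ≠ 0 := by
      rintro rfl
      have h3 : α x * α x⁻¹ = 1 := by rw [← map_mul, mul_inv_cancel, map_one]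
      rw [h1, zero_smul, zero_mul] at h3
      exact zero_ne_one h3
    exact ⟨Units.mk0 c h2, h1⟩
  have hl := li σ (scal α) (fun x hx => by
    obtain ⟨c, h1⟩ := hc hx
    exact ⟨θ c, hs x c h1⟩) hZ
  have : Fintype (G ⧸ scal α) := Fintype.ofFinite _
  have h1 : Fintype.card (G ⧸ scal α) = finrank k V ^ 2 := by
    rw [← sq hα hc, ← Nat.card_eq_fintype_card]
    rfl
  have h2 : finrank ℂ (Module.End ℂ X) = finrank ℂ X ^ 2 := by
    rw [Module.finrank_linearMap, pow_two]
  have h3 := hl.fintype_card_le_finrank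
  rw [h1, h2] at h3
  have h4 : finrank ℂ X = finrank k V :=
    le_antisymm hX ((Nat.pow_le_pow_iff_left two_ne_zero).1 h3)
  refine ⟨h4, ⟨inferInstance, fun U hU => ?_⟩, hl⟩
  have h5 := hl.span_eq_top_of_card_eq_finrank' (by rw [h1, h2, h4])
  have h6 : ∀ T : Module.End ℂ X, ∀ v ∈ U, T v ∈ U := by
    intro T
    have hT : T ∈ Submodule.span ℂ (Set.range fun c : G ⧸ scal α => σ c.out) := by
      rw [h5]
      trivial
    induction hT using Submodule.span_induction with
    | mem T hT =>
      obtain ⟨c, rfl⟩ := hT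
      exact hU _
    | zero => exact fun v _ => U.zero_mem
    | add A B _ _ hA hB => exact fun v hv => U.add_mem (hA v hv) (hB v hv)
    | smul a A _ hA => exact fun v hv => U.smul_mem a (hA v hv)
  by_cases hb : U = ⊥
  · exact Or.inl hb
  refine Or.inr (eq_top_iff.2 fun v _ => ?_)
  obtain ⟨u, hu, hu0⟩ := (Submodule.ne_bot_iff U).1 hb
  obtain ⟨f, hf⟩ := Module.Projective.exists_dual_eq_one ℂ hu0
  have h7 := h6 (f.smulRight v) u hu
  rwa [LinearMap.smulRight_apply, hf, one_smul] at h7

end Pool.Agent.MP_f0649b_al.FS
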