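import Pool.Agent.MP_f0649b_al.FS.Defs
import Pool.Agent.MP_f0649b_al.Eig

/-! Reduction to a primitive representation over an algebraically closed field. -/

open Module

namespace Pool.Agent.MP_f0649b_al.FS

variable {k G V W : Type} [Field k] [Group G] [AddCommGroup V] [Module k V] [AddCommGroup W]
  [Module k W]

theorem schurK [IsAlgClosed k] [FiniteDimensional k V] {ρ : Representation k G V} (hρ : Irr ρ)
    (T : Module.End k V) (hT : ∀ g, T * ρ g = ρ g * T) :
    ∃ c : k, T = c • (1 : Module.End k V) := by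
  have := hρ.1
  obtain ⟨c, hc⟩ := Module.End.exists_eigenvalue T
  refine ⟨c, ?_⟩
  have hinv : ∀ g, ∀ v ∈ T.eigenspace c, ρ g v ∈ T.eigenspace c := by
    intro g v hv
    rw [Module.End.mem_eigenspace_iff] at hv ⊢
    rw [← Module.End.mul_apply, hT, Module.End.mul_apply, hv, map_smul]
  rcases hρ.2 _ hinv with h | h
  · exact absurd h hc
  · ext v
    have hv : v ∈ T.eigenspace c := h ▸ Submodule.mem_top
    rw [Module.End.mem_eigenspace_iff] at hv
    simpa using hv

theorem exists_irr_sub [FiniteDimensional k V] [Nontrivial V] (ρ : Representation k G V) :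
    ∃ (W : Type) (_ : AddCommGroup W) (_ : Module k W) (_ : FiniteDimensional k W)
      (τ : Representation k G W) (ι : W →ₗ[k] V), Irr τ ∧ Function.Injective ι ∧
      ∀ g w, ι (τ g w) = ρ g (ι w) := by
  obtain ⟨U, ⟨h0, hU⟩, hmin⟩ := exists_minimal_of_wellFoundedLT
    (fun U : Submodule k V => U ≠ ⊥ ∧ ∀ g, ∀ v ∈ U, ρ g v ∈ U)
    ⟨⊤, top_ne_bot, fun _ _ _ => trivial⟩
  let σ : Representation k G U := Representation.subrepresentation ρ U fun g v hv => hU g v hv
  have hb : ∀ U' : Submodule k U, U' ≠ ⊥ → U'.map U.subtype ≠ ⊥ := fun U' h e =>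
    h (Submodule.map_injective_of_injective U.injective_subtype (e.trans (Submodule.map_bot _).symm))
  refine ⟨U, inferInstance, inferInstance, inferInstance, σ, U.subtype,
    ⟨Submodule.nontrivial_iff_ne_bot.2 h0, fun U' hU' => or_iff_not_imp_left.2 fun h => ?_⟩,
    U.injective_subtype, fun _ _ => rfl⟩
  have h1 : U ≤ U'.map U.subtype := hmin (y := U'.map U.subtype) ⟨hb U' h, by
    rintro g _ ⟨v, hv, rfl⟩
    exact ⟨σ g v, hU' _ v hv, rfl⟩⟩ (Submodule.map_subtype_le U U')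
  rw [eq_top_iff]
  intro v _
  obtain ⟨w, hw, e⟩ := h1 v.2
  rwa [← show w = v from Subtype.ext e]

/-- the sum of the translates of a subspace by coset representatives -/
noncomputable def PrimK_sum (ρ : Representation k G V) (H : Subgroup G) [Fintype (G ⧸ H)]
    (U : Submodule k V) : (G ⧸ H → U) →ₗ[k] V :=
  ∑ c : G ⧸ H, (ρ c.out) ∘ₗ U.subtype ∘ₗ LinearMap.proj c

theorem PrimK_sum_apply (ρ : Representation k G V) (H : Subgroup G) [Fintype (G ⧸ H)]
    (U : Submodule k V) (f : G ⧸ H → U) : PrimK_sum ρ H U f = ∑ c : G ⧸ H, ρ c.out (f c) := by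
  simp [PrimK_sum]

theorem PrimK_dim [FiniteDimensional k V] (H : Subgroup G) [Fintype (G ⧸ H)] (U : Submodule k V) :
    finrank k (G ⧸ H → U) = H.index * finrank k U := by
  rw [Module.finrank_pi_fintype, Finset.sum_const, smul_eq_mul, Finset.card_univ,
    Subgroup.index_eq_card, Nat.card_eq_fintype_card]

theorem PrimK_lower [Finite G] [FiniteDimensional k V] {ρ : Representation k G V} (hρ : Irr ρ)
    (H : Subgroup G) (U : Submodule k V) (h0 : U ≠ ⊥) (hU : ∀ h ∈ H, ∀ v ∈ U, ρ h v ∈ U) :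
    finrank k V ≤ H.index * finrank k U := by
  classical
  have := Fintype.ofFinite (G ⧸ H)
  have h1 : ∀ x : G, ∀ w ∈ U, ρ x w ∈ LinearMap.range (PrimK_sum ρ H U) := by
    intro x w hw
    obtain ⟨h, hh⟩ := QuotientGroup.mk_out_eq_mul H x
    refine ⟨Pi.single (x : G ⧸ H) ⟨ρ (h⁻¹ : H) w, hU _ (h⁻¹ : H).2 w hw⟩, ?_⟩
    rw [PrimK_sum_apply, Finset.sum_eq_single (x : G ⧸ H) (fun b _ hb => by simp [hb]) (by simp),
      Pi.single_eq_same, hh, ← Module.End.mul_apply, ← map_mul]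
    simp
  have h2 : LinearMap.range (PrimK_sum ρ H U) = ⊤ := by
    refine (hρ.2 _ ?_).resolve_left fun h => h0 ?_
    · rintro g _ ⟨f, rfl⟩
      rw [PrimK_sum_apply, map_sum]
      refine Submodule.sum_mem _ fun c _ => ?_
      rw [← Module.End.mul_apply, ← map_mul]
      exact h1 _ _ (f c).2
    · rw [eq_bot_iff]
      intro w hw
      have := h1 1 w hw
      rwa [h, map_one] at this
  rw [← PrimK_dim, ← finrank_top k V, ← h2]
  exact LinearMap.finrank_range_le _

/-- the weight space -/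
def PrimK_wt (ρ : Representation k G V) (A : Subgroup G) (χ : A → k) : Submodule k V :=
  ⨅ a : A, Module.End.eigenspace (ρ a) (χ a)

theorem PrimK_mem {ρ : Representation k G V} {A : Subgroup G} {χ : A → k} {v : V} :
    v ∈ PrimK_wt ρ A χ ↔ ∀ a : A, ρ a v = χ a • v := by
  simp [PrimK_wt]

/-- the conjugate weight -/
def PrimK_cj (A : Subgroup G) [hA : A.Normal] (χ : A → k) (g : G) (a : A) : k :=
  χ ⟨g⁻¹ * a * g, hA.conj_mem' _ a.2 g⟩

theorem PrimK_cj_mul (A : Subgroup G) [A.Normal] (χ : A → k) (g h : G) :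
    PrimK_cj A χ (g * h) = PrimK_cj A (PrimK_cj A χ h) g := by
  funext a
  simp [PrimK_cj, mul_assoc]

theorem PrimK_cj_one (A : Subgroup G) [A.Normal] (χ : A → k) : PrimK_cj A χ 1 = χ := by
  funext a
  simp [PrimK_cj]

theorem PrimK_move {ρ : Representation k G V} {A : Subgroup G} [A.Normal] {χ : A → k} {v : V}
    (hv : v ∈ PrimK_wt ρ A χ) (g : G) : ρ g v ∈ PrimK_wt ρ A (PrimK_cj A χ g) := by
  rw [PrimK_mem] at hv ⊢
  intro a
  rw [← map_smul, PrimK_cj, ← hv, ← Module.End.mul_apply, ← Module.End.mul_apply, ← map_mul,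
    ← map_mul]
  simp [mul_assoc]

/-- the stabiliser of a weight -/
def PrimK_st (A : Subgroup G) [A.Normal] (χ : A → k) : Subgroup G where
  carrier := {g | PrimK_cj A χ g = χ}
  one_mem' := PrimK_cj_one A χ
  mul_mem' := by
    intro g h hg hh
    change PrimK_cj A χ _ = χ at hg hh ⊢
    rw [PrimK_cj_mul, hh, hg]
  inv_mem' := by
    intro g hg
    change PrimK_cj A χ _ = χ at hg ⊢
    conv_lhs => rw [← hg]
    rw [← PrimK_cj_mul, inv_mul_cancel, PrimK_cj_one]

theorem PrimK_upper [Finite G] [FiniteDimensional k V] (ρ : Representation k G V) (A : Subgroup G)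
    [A.Normal] (χ : A → k) :
    (PrimK_st A χ).index * finrank k (PrimK_wt ρ A χ) ≤ finrank k V := by
  classical
  have := Fintype.ofFinite (G ⧸ PrimK_st A χ)
  have h1 : Function.Injective fun c : G ⧸ PrimK_st A χ => PrimK_cj A χ c.out := by
    intro c d h
    rw [← c.out_eq', ← d.out_eq', QuotientGroup.eq]
    change PrimK_cj A χ _ = χ
    change PrimK_cj A χ _ = PrimK_cj A χ _ at h
    rw [PrimK_cj_mul, ← h, ← PrimK_cj_mul, inv_mul_cancel, PrimK_cj_one]
  have h2 := (iSupIndep_iff_finsetSum_eq_zero_imp_eq_zero _).1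
    ((eig_indep fun a : A => ρ a).comp h1)
  rw [← PrimK_dim]
  refine LinearMap.finrank_le_finrank_of_injective (f := PrimK_sum ρ _ _) ?_
  rw [injective_iff_map_eq_zero]
  intro f hf
  rw [PrimK_sum_apply] at hf
  funext c
  have h3 := h2 Finset.univ _ (fun c _ => PrimK_move (f c).2 c.out) hf c (Finset.mem_univ c)
  have h4 := congrArg (ρ c.out⁻¹) h3
  rw [← Module.End.mul_apply, ← map_mul, inv_mul_cancel, map_one, map_zero] at h4
  exact Subtype.ext h4

theorem PrimK_eig [IsAlgClosed k] [FiniteDimensional k V] [Nontrivial V]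
    (ρ : Representation k G V) (A : Subgroup G) (h : ∀ x ∈ A, ∀ y ∈ A, Commute (ρ x) (ρ y)) :
    ∃ χ : A → k, PrimK_wt ρ A χ ≠ ⊥ := by
  obtain ⟨V', _, _, _, ρ', ι, hi, hι, hc⟩ := exists_irr_sub (ρ.comp A.subtype)
  have h1 : ∀ a : A, ∃ c : k, ρ' a = c • (1 : Module.End k V') := fun x =>
    schurK hi _ fun y => LinearMap.ext fun v => hι (by
      rw [Module.End.mul_apply, Module.End.mul_apply, hc, hc, hc, hc]
      exact LinearMap.congr_fun (h x x.2 y y.2) (ι v))
  choose c hcv using h1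
  have := hi.1
  obtain ⟨v, hv⟩ := exists_ne (0 : V')
  refine ⟨c, (Submodule.ne_bot_iff _).2 ⟨ι v, PrimK_mem.2 fun a => ?_,
    fun h0 => hv (hι (by rw [h0, map_zero]))⟩⟩
  have h2 := hc a v
  rw [hcv, LinearMap.smul_apply, Module.End.one_apply, map_smul] at h2
  exact h2.symm

theorem PrimK_fix {ρ : Representation k G V} {A : Subgroup G} [A.Normal] {χ : A → k}
    (hχ : PrimK_wt ρ A χ ≠ ⊥) {g : G} {c : kˣ} (hg : ρ g = (c : k) • (1 : Module.End k V)) :
    g ∈ PrimK_st A χ := by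
  obtain ⟨v, hv, hv0⟩ := (Submodule.ne_bot_iff _).1 hχ
  have h1 := PrimK_move hv g
  rw [hg, LinearMap.smul_apply, Module.End.one_apply,
    Submodule.smul_mem_iff _ c.ne_zero] at h1
  change PrimK_cj A χ g = χ
  funext a
  exact smul_left_injective k hv0 ((PrimK_mem.1 h1 a).symm.trans (PrimK_mem.1 hv a))

theorem primk [IsAlgClosed k] [Finite G] [FiniteDimensional k V] {ρ : Representation k G V}
    (hρ : Irr ρ) :
    ∃ (H : Subgroup G) (W : Type) (_ : AddCommGroup W) (_ : Module k W)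
      (_ : FiniteDimensional k W) (σ : Representation k H W) (ι : W →ₗ[k] V), Irr σ ∧ QP σ ∧
      H.index * finrank k W = finrank k V ∧ scal ρ ≤ H ∧ Function.Injective ι ∧
      ∀ (h : H) w, ι (σ h w) = ρ h (ι w) := by
  have := hρ.1
  obtain ⟨⟨H, U⟩, ⟨h0, hU, hle, hs⟩, hmin⟩ := exists_minimalFor_of_wellFoundedLT
    (fun p : Subgroup G × Submodule k V => p.2 ≠ ⊥ ∧ (∀ h ∈ p.1, ∀ v ∈ p.2, ρ h v ∈ p.2) ∧
      p.1.index * finrank k p.2 ≤ finrank k V ∧ scal ρ ≤ p.1) Prod.fst
    ⟨(⊤, ⊤), top_ne_bot, fun _ _ _ _ => trivial, by simp, le_top⟩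
  dsimp only at h0 hU hle hs
  let σ : Representation k H U :=
    Representation.subrepresentation (ρ.comp H.subtype) U fun g v hv => hU g g.2 v hv
  have hσ : ∀ (g : H) (v : U), (σ g v : V) = ρ g v := fun _ _ => rfl
  have hb : ∀ U' : Submodule k U, U' ≠ ⊥ → U'.map U.subtype ≠ ⊥ := fun U' h e =>
    h (Submodule.map_injective_of_injective U.injective_subtype (e.trans (Submodule.map_bot _).symm))
  have hnt : Nontrivial U := Submodule.nontrivial_iff_ne_bot.2 h0
  have hirr : Irr σ := by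
    refine ⟨hnt, fun U' hU' => or_iff_not_imp_left.2 fun h => ?_⟩
    have h1 := PrimK_lower hρ H _ (hb U' h) (by
      rintro g hg _ ⟨v, hv, rfl⟩
      exact ⟨σ ⟨g, hg⟩ v, hU' _ v hv, rfl⟩)
    rw [Submodule.finrank_map_subtype_eq] at h1
    exact Submodule.eq_top_of_finrank_eq (le_antisymm U'.finrank_le
      (Nat.le_of_mul_le_mul_left (hle.trans h1) (Nat.pos_of_ne_zero H.index_ne_zero_of_finite)))
  refine ⟨H, U, inferInstance, inferInstance, inferInstance, σ, U.subtype, hirr,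
    fun A hA hc x hx => ?_, le_antisymm hle (PrimK_lower hρ H U h0 hU), hs, U.injective_subtype,
    fun _ _ => rfl⟩
  obtain ⟨χ, hχ⟩ := PrimK_eig σ A hc
  have h1 : ∀ g ∈ PrimK_st A χ, ∀ v ∈ PrimK_wt σ A χ, σ g v ∈ PrimK_wt σ A χ := fun g hg v hv => by
    have := PrimK_move hv g
    rwa [show PrimK_cj A χ g = χ from hg] at this
  have h2 : H ≤ (PrimK_st A χ).map H.subtype :=
    hmin (j := ((PrimK_st A χ).map H.subtype, (PrimK_wt σ A χ).map U.subtype))
      ⟨hb _ hχ, by
        rintro _ ⟨g, hg, rfl⟩ _ ⟨v, hv, rfl⟩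
        exact ⟨σ g v, h1 g hg v hv, rfl⟩, by
        rw [Subgroup.index_map_subtype, Submodule.finrank_map_subtype_eq, mul_right_comm,
          mul_comm]
        exact (Nat.mul_le_mul_left _ (PrimK_upper σ A χ)).trans hle, by
        rintro g ⟨c, hg⟩
        refine ⟨⟨g, hs ⟨c, hg⟩⟩, PrimK_fix hχ (c := c) (LinearMap.ext fun v => Subtype.ext ?_), rfl⟩
        rw [hσ, hg]
        rfl⟩ (Subgroup.map_subtype_le _)
  have h3 : PrimK_wt σ A χ = ⊤ := (hirr.2 _ fun g => h1 g (by
    obtain ⟨g', hg', e⟩ := h2 g.2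
    rwa [← show g' = g from Subtype.ext e])).resolve_left hχ
  have h4 : σ x = χ ⟨x, hx⟩ • (1 : Module.End k U) := LinearMap.ext fun v =>
    PrimK_mem.1 (h3 ▸ Submodule.mem_top : v ∈ PrimK_wt σ A χ) ⟨x, hx⟩
  have h5 : χ ⟨x, hx⟩ ≠ 0 := by
    intro e
    have h6 : σ x⁻¹ * σ x = 1 := by rw [← map_mul, inv_mul_cancel, map_one]
    rw [h4, e, zero_smul, mul_zero] at h6
    exact zero_ne_one h6
  exact ⟨Units.mk0 _ h5, h4⟩

end Pool.Agent.MP_f0649b_al.FS
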