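import Pool.Agent.MP_f0649b_al.FS.PrimK

/-! Linear independence, spanning, and uniqueness of modules. -/

open Module

namespace Pool.Agent.MP_f0649b_al.FS

variable {k G V W : Type} [Field k] [Group G] [AddCommGroup V] [Module k V] [AddCommGroup W]
  [Module k W]

theorem SN_inv_mul (τ : Representation k G V) (x : G) : τ x⁻¹ * τ x = 1 := by
  rw [← map_mul, inv_mul_cancel, map_one]

theorem SN_ne_zero [Nontrivial V] (τ : Representation k G V) (x : G) : τ x ≠ 0 := fun h => by
  have := SN_inv_mul τ x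
  rw [h, mul_zero] at this
  exact zero_ne_one this

/-- the span of the image as a subalgebra -/
def SN_alg (ρ : Representation k G V) : Subalgebra k (Module.End k V) :=
  (Submodule.span k (Set.range ρ)).toSubalgebra
    (Submodule.subset_span ⟨1, map_one ρ⟩) (by
      intro x y hx hy
      induction hx using Submodule.span_induction with
      | mem x hx =>
        obtain ⟨a, rfl⟩ := hx
        induction hy using Submodule.span_induction with
        | mem y hy =>
          obtain ⟨b, rfl⟩ := hy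
          exact Submodule.subset_span ⟨a * b, map_mul ρ a b⟩
        | zero => rw [mul_zero]; exact zero_mem _
        | add y z _ _ h1 h2 => rw [mul_add]; exact add_mem h1 h2
        | smul c y _ h => rw [mul_smul_comm]; exact Submodule.smul_mem _ c h
      | zero => rw [zero_mul]; exact zero_mem _
      | add x z _ _ h1 h2 => rw [add_mul]; exact add_mem h1 h2
      | smul c x _ h => rw [smul_mul_assoc]; exact Submodule.smul_mem _ c h)

theorem SN_simple {ρ : Representation k G V} (h : Irr ρ) : IsSimpleModule (SN_alg ρ) V := by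
  have := h.1
  refine { eq_bot_or_eq_top := fun U => ?_ }
  rcases h.2 (U.restrictScalars k) (fun g v hv =>
    U.smul_mem (⟨ρ g, Submodule.subset_span ⟨g, rfl⟩⟩ : SN_alg ρ) hv) with e | e
  · exact Or.inl ((Submodule.restrictScalars_eq_bot_iff k _ _).1 e)
  · exact Or.inr ((Submodule.restrictScalars_eq_top_iff k _ _).1 e)

theorem li [Nontrivial V] (τ : Representation k G V) (Z : Subgroup G)
    (hc : commutator G ≤ scal τ) (hZ : ∀ x, (∀ y, Commute (τ x) (τ y)) → x ∈ Z) :
    LinearIndependent k (fun c : G ⧸ Z => τ c.out) := by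
  have h1 : ∀ y x : G, ∃ c : k, τ (y * x * y⁻¹) = c • τ x := fun y x => by
    obtain ⟨c, h⟩ := hc (Subgroup.commutator_mem_commutator (Subgroup.mem_top y)
      (Subgroup.mem_top x))
    refine ⟨c, ?_⟩
    rw [← one_mul (τ x), ← smul_mul_assoc, ← h, ← map_mul, commutatorElement_def,
      inv_mul_cancel_right]
  choose ω hω using h1
  refine eig_li (fun y => LinearMap.mulLeftRight k (τ y, τ y⁻¹)) (fun c y => ω y c.out)
    (fun c c' e => ?_) _ (fun c => SN_ne_zero τ _) fun c y => ?_
  · rw [← c.out_eq', ← c'.out_eq']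
    refine QuotientGroup.eq.2 (hZ _ fun y => ?_)
    have e1 : ω y c.out = ω y c'.out := congrFun e y
    generalize c.out = x at e1
    generalize c'.out = x' at e1
    have e2 : τ (y * (x⁻¹ * x') * y⁻¹) = τ (x⁻¹ * x') := by
      calc τ (y * (x⁻¹ * x') * y⁻¹) = τ (y * x * y⁻¹)⁻¹ * τ (y * x' * y⁻¹) := by
            rw [← map_mul]; congr 1; group
        _ = τ (y * x * y⁻¹)⁻¹ * (τ (y * x * y⁻¹) * τ (x⁻¹ * x')) := by
            rw [hω y x', hω y x, e1, smul_mul_assoc, ← map_mul, mul_inv_cancel_left]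
        _ = τ (x⁻¹ * x') := by rw [← mul_assoc, SN_inv_mul, one_mul]
    change τ (x⁻¹ * x') * τ y = τ y * τ (x⁻¹ * x')
    conv_lhs => rw [← e2]
    rw [← map_mul, ← map_mul, inv_mul_cancel_right]
  · rw [LinearMap.mulLeftRight_apply, ← hω, map_mul, map_mul]

theorem burn [IsAlgClosed k] [FiniteDimensional k V] {τ : Representation k G V} (hτ : Irr τ) :
    Submodule.span k (Set.range τ) = ⊤ := by
  have := SN_simple hτ
  rw [eq_top_iff]
  intro T _
  have hs := (IsSimpleModule.algebraMap_end_bijective_of_isAlgClosed (A := SN_alg τ)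
    (V := V) k).2
  let f : Module.End (Module.End (SN_alg τ) V) V :=
    { toFun := T
      map_add' := T.map_add
      map_smul' := fun φ v => by
        obtain ⟨c, rfl⟩ := hs φ
        simp }
  classical
  let b := Module.finBasis k V
  obtain ⟨r, hr⟩ := jacobson_density f (Finset.univ.image b)
  have h1 : T = r.1 := b.ext fun i => hr (b i) (Finset.mem_image_of_mem _ (Finset.mem_univ i))
  rw [h1]
  exact r.2

theorem sq [IsAlgClosed k] [Finite G] [FiniteDimensional k V] {τ : Representation k G V}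
    (hτ : Irr τ) (hc : commutator G ≤ scal τ) : (scal τ).index = finrank k V ^ 2 := by
  have := hτ.1
  have h1 := li τ (scal τ) hc fun x hx => by
    obtain ⟨c, h⟩ := schurK hτ (τ x) hx
    have h0 : c ≠ 0 := by
      rintro rfl
      exact SN_ne_zero τ x (by rw [h, zero_smul])
    exact ⟨Units.mk0 c h0, h⟩
  have h2 : ⊤ ≤ Submodule.span k (Set.range fun c : G ⧸ scal τ => τ c.out) := by
    rw [← burn hτ, Submodule.span_le]
    rintro _ ⟨g, rfl⟩
    obtain ⟨z, hz⟩ := QuotientGroup.mk_out_eq_mul (scal τ) g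
    obtain ⟨c, h⟩ := (scal τ).inv_mem z.2
    have e : τ g = (c : k) • τ (g : G ⧸ scal τ).out := by
      rw [hz, ← mul_one (τ (g * z)), ← mul_smul_comm, ← h, ← map_mul, mul_inv_cancel_right]
    rw [e]
    exact Submodule.smul_mem _ _ (Submodule.subset_span ⟨_, rfl⟩)
  rw [Subgroup.index, ← finrank_eq_nat_card_basis (Basis.mk h1 h2), Module.finrank_linearMap,
    pow_two]

theorem sn [Finite G] {τ τ' : Representation k G V} (h : Irr τ) (h' : Irr τ') (Z : Subgroup G)
    [Z.Normal] (hZ : ∀ z ∈ Z, ∃ c : k, τ z = c • (1 : Module.End k V) ∧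
      τ' z = c • (1 : Module.End k V))
    (hli : LinearIndependent k (fun c : G ⧸ Z => τ c.out)) :
    ∃ A : V ≃ₗ[k] V, ∀ g v, A (τ g v) = τ' g (A v) := by
  have := h.1
  have := Fintype.ofFinite (G ⧸ Z)
  obtain ⟨φ, hφ⟩ : ∃ φ : Module.End k V, ∑ c : G ⧸ Z, τ' c.out⁻¹ * φ * τ c.out ≠ 0 := by
    by_contra h0
    push Not at h0
    obtain ⟨w, hw⟩ := exists_ne (0 : V)
    have h1 : τ' (1 : G ⧸ Z).out⁻¹ w = 0 := by
      refine (forall_dual_apply_eq_zero_iff k _).1 fun g => ?_
      refine Fintype.linearIndependent_iff.1 hli (fun c => g (τ' c.out⁻¹ w))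
        (LinearMap.ext fun v => (forall_dual_apply_eq_zero_iff k _).1 fun f => ?_) 1
      have h2 := congrArg g (LinearMap.congr_fun (h0 (f.smulRight w)) v)
      simpa [mul_comm] using h2
    have h2 := LinearMap.congr_fun (SN_inv_mul τ' (1 : G ⧸ Z).out⁻¹) w
    rw [Module.End.mul_apply, h1, map_zero] at h2
    exact hw h2.symm
  have h1 : ∀ a b : G, (a : G ⧸ Z) = b → τ' b⁻¹ * φ * τ b = τ' a⁻¹ * φ * τ a := fun a b e => by
    obtain ⟨c, c1, c2⟩ := hZ _ (QuotientGroup.eq.1 e)
    obtain ⟨z, rfl⟩ : ∃ z, b = a * z := ⟨a⁻¹ * b, by group⟩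
    rw [inv_mul_cancel_left] at c1 c2
    have c3 := SN_inv_mul τ' z
    rw [c2, mul_smul_comm, mul_one] at c3
    rw [mul_inv_rev, map_mul, map_mul, c1, mul_smul_comm, mul_smul_comm, mul_one,
      ← smul_mul_assoc, ← smul_mul_assoc, ← smul_mul_assoc, c3, one_mul]
  set A := ∑ c : G ⧸ Z, τ' c.out⁻¹ * φ * τ c.out with hA
  have h2 : ∀ x, A * τ x = τ' x * A := fun x => by
    conv_rhs => rw [hA, ← Equiv.sum_comp (Equiv.mulRight (x : G ⧸ Z))]
    rw [hA, Finset.sum_mul, Finset.mul_sum]
    refine Finset.sum_congr rfl fun c _ => ?_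
    rw [h1 (c.out * x) (Equiv.mulRight (x : G ⧸ Z) c).out (by simp), mul_inv_rev, map_mul, map_mul]
    simp only [← mul_assoc]
    rw [← map_mul τ' x, mul_inv_cancel, map_one, one_mul]
  have h3 : ∀ x v, A (τ x v) = τ' x (A v) := fun x v => LinearMap.congr_fun (h2 x) v
  have h4 : LinearMap.ker A = ⊥ := (h.2 _ fun g v hv => by
    rw [LinearMap.mem_ker] at hv ⊢
    rw [h3, hv, map_zero]).resolve_right fun e => hφ (LinearMap.ker_eq_top.1 e)
  have h5 : LinearMap.range A = ⊤ := (h'.2 _ (by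
    rintro g _ ⟨v, rfl⟩
    exact ⟨_, h3 g v⟩)).resolve_left fun e => hφ (LinearMap.range_eq_bot.1 e)
  exact ⟨LinearEquiv.ofBijective A ⟨LinearMap.ker_eq_bot.1 h4, LinearMap.range_eq_top.1 h5⟩, h3⟩

end Pool.Agent.MP_f0649b_al.FS
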